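import Pool.Agent.H3.Y.Df

/-! Statements of the parts. -/

set_option autoImplicit false
open Finset Filter Topology

namespace Pool.Agent.H3.Y

/-- the indicator function of the quadruples which are edges -/
def ind {V : Type} [DecidableEq V] (H : Finset (Finset V)) (a b c d : V) : ℕ := if ({a, b, c, d} : Finset V) ∈ H then 1 else 0

/-- the sum over the ordered triples of the squares of the codegrees -/
def S3 {V : Type} [Fintype V] (E : V → V → V → V → ℕ) : ℕ := ∑ a, ∑ b, ∑ c, (∑ d, E a b c d) ^ 2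

/-- (A) the lower bound: the construction of Giraud -/
def S_LOW : Prop := ∃ C : ℕ, ∀ n : ℕ, ∃ H : Finset (Finset (Fin n)), FourGraph H ∧ K5Free H ∧
  31 * n ^ 5 ≤ 384 * co2 H + C * n ^ 4

/-- (B1) ordered and unordered triples -/
def S_CNT1 : Prop := ∀ (V : Type) [Fintype V] [DecidableEq V] (H : Finset (Finset V)), FourGraph H →
  6 * co2 H ≤ S3 (ind H)

/-- (B2) Cauchy-Schwarz -/
def S_CNT2 : Prop := ∀ (V : Type) [Fintype V] [DecidableEq V] (H : Finset (Finset V)), FourGraph H →
  (4 * H.card) ^ 2 ≤ (Fintype.card V).choose 3 * co2 H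

/-- the upper bound (from the computation) -/
def S_UP : Prop := ∀ (n : ℕ) (H : Finset (Finset (Fin n))), FourGraph H → K5Free H → 384 * co2 H ≤ 31 * n ^ 5

/-- (C1) the limit -/
def S_LIM : Prop := S_LOW → S_UP →
  Tendsto (fun n : ℕ => (exco2 n : ℝ) / ((n.choose 3 : ℝ) * (n : ℝ) ^ 2)) atTop (𝓝 (31 / 64))

/-- (C2) the bound for the number of edges -/
def S_EDGE : Prop := S_UP → ∀ (n : ℕ) (H : Finset (Finset (Fin n))), FourGraph H → K5Free H →
  36864 * H.card ^ 2 ≤ 31 * n ^ 8

/-- (C3) the conjectured bound if no codegree is strictly between `n / 2` and `3 * n / 4` -/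
def S_GAP : Prop := S_UP → ∀ (n : ℕ) (H : Finset (Finset (Fin n))), FourGraph H → K5Free H →
  (∀ T : Finset (Fin n), T.card = 3 → 2 * codeg H T ≤ n ∨ 3 * n ≤ 4 * codeg H T) → 384 * H.card ≤ 11 * n ^ 4

/-- (C4) the number of edges and the triples whose codegree is strictly between `n / 2` and `3 * n / 4` -/
def S_MID : Prop := S_UP → ∀ (n : ℕ) (H : Finset (Finset (Fin n))), FourGraph H → K5Free H →
  1920 * H.card ≤ 55 * n ^ 4 + 6 * (n * mid H)

end Pool.Agent.H3.Y
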