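import Pool.Agent.H3.Y.Df

/-! Further definitions used in the statement. -/

set_option autoImplicit false
open Finset

namespace Pool.Agent.H3.Y

open Classical in
/-- the number of the members of `H` which are subsets of `S` -/
noncomputable def inside {V : Type} (H : Finset (Finset V)) (S : Finset V) : ℕ := (H.filter fun e => e ⊆ S).card

open Classical in
/-- the number of the sets of five vertices which contain an odd number of edges of `H` -/
noncomputable def odd5 {V : Type} [Fintype V] (H : Finset (Finset V)) : ℕ :=
  (((univ : Finset V).powersetCard 5).filter fun S => Odd (inside H S)).card

open Classical in
/-- the number of the quadruples `T` on which `H` and the coboundary of `G` (the quadruples which contain an odd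
number of members of `G`) differ -/
noncomputable def cobDist {V : Type} [Fintype V] (H G : Finset (Finset V)) : ℕ :=
  (((univ : Finset V).powersetCard 4).filter fun T => ¬ (T ∈ H ↔ Odd (inside G T))).card

end Pool.Agent.H3.Y
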