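import Mathlib

/-! The definitions used in the statement. -/

set_option autoImplicit false
open Finset

namespace Pool.Agent.H3.Y

/-- `H` is a `4`-graph: all its edges have four elements -/
def FourGraph {V : Type} (H : Finset (Finset V)) : Prop := ∀ e ∈ H, e.card = 4

/-- no five vertices have all their `4`-element subsets in `H` -/
def K5Free {V : Type} (H : Finset (Finset V)) : Prop :=
  ¬ ∃ S : Finset V, S.card = 5 ∧ S.powersetCard 4 ⊆ H

open Classical in
/-- the codegree of `T`: the number of vertices outside `T` which form an edge of `H` together with `T` -/
noncomputable def codeg {V : Type} [Fintype V] (H : Finset (Finset V)) (T : Finset V) : ℕ :=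
  ((univ : Finset V).filter fun v => v ∉ T ∧ insert v T ∈ H).card

/-- the codegree squared sum: the sum of the squares of the codegrees of all the triples -/
noncomputable def co2 {V : Type} [Fintype V] (H : Finset (Finset V)) : ℕ :=
  ∑ T ∈ (univ : Finset V).powersetCard 3, codeg H T ^ 2

/-- the number of the triples whose codegree is strictly between `n / 2` and `3 * n / 4`, where `n` is the
number of vertices -/
noncomputable def mid {V : Type} [Fintype V] (H : Finset (Finset V)) : ℕ :=
  (((univ : Finset V).powersetCard 3).filter fun T =>
    Fintype.card V < 2 * codeg H T ∧ 4 * codeg H T < 3 * Fintype.card V).card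

open Classical in
/-- the largest codegree squared sum of a `K_5^4`-free `4`-graph with `n` vertices -/
noncomputable def exco2 (n : ℕ) : ℕ :=
  ((univ : Finset (Finset (Finset (Fin n)))).filter fun H => FourGraph H ∧ K5Free H).sup co2

open Classical in
/-- the largest number of edges of a `K_5^4`-free `4`-graph with `n` vertices -/
noncomputable def ex (n : ℕ) : ℕ :=
  ((univ : Finset (Finset (Finset (Fin n)))).filter fun H => FourGraph H ∧ K5Free H).sup card

end Pool.Agent.H3.Y
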