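import Pool.Agent.H3.Y.Ker

/-! Checks of the invariance of the rows. -/

set_option autoImplicit false
set_option maxRecDepth 100000

namespace Pool.Agent.H3.Y
open Pool.Agent.T2H33.K6

noncomputable section

/-- the exchange of the vertices 0 and 1 -/
def fs01 (x : ℕ) : ℕ := (sb 8 9 (sb 2 4 (sb 1 3 x)))
def ts01 (t : ℕ) : ℕ := sb 2 3 t
def rs01 (s x : ℕ) : ℕ := (swp s 10 8 9 (swp s 10 2 4 (swp s 10 1 3 x)))
def pi01 (k : ℕ) : ℕ := Nat.land (Nat.shiftRight 0x829089817f807e7d8f887c7a7b7978918e8c8d8b8a878586848377767271707574736f6e6d654f39383736356c64626361604e4d34333231302d2c2b2f2e2a2928276b5f5e4c4a4b494826252423221f1e1d21201c1b1a196a696867665d5c5b5a5955545857565352515047464544433f3e4241403d3c3b3a1514131817161211100f0e0d0c070605040b0a090803020100 (Nat.mul 8 k)) 255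
def e01 (t : ℕ) : Bool := al 146 (fun k => Nat.beq (rs01 32 (rw t k)) (rw (ts01 t) (pi01 k)))
def g01 : Bool := al 146 (fun k => cnd (Nat.beq (rs01 1 (SG k)) (SG (pi01 k))) (cnd (Nat.beq (K2 (pi01 k)) (K2 k)) (cnd (Nat.blt (pi01 k) 146) (Nat.beq (pi01 (pi01 k)) k) false) false) false)
theorem ce01 : al 32 (fun t => st e01 t) = true := by decide +kernel
theorem cg01 : g01 = true := by decide +kernel
theorem cv01 : Nat.beq (swp 1 15 1 3 (swp 1 15 2 4 (swp 1 15 8 9 (swp 1 15 12 13 GV)))) GV = true := by decide +kernel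

/-- the exchange of the vertices 1 and 2 -/
def fs12 (x : ℕ) : ℕ := (sb 7 8 (sb 4 5 (sb 0 1 x)))
def ts12 (t : ℕ) : ℕ := sb 1 2 t
def rs12 (s x : ℕ) : ℕ := (swp s 10 7 8 (swp s 10 4 5 (swp s 10 0 1 x)))
def pi12 (k : ℕ) : ℕ := Nat.land (Nat.shiftRight 0x91908e8f8d8b8c8a6c6a6b696867666465636162605f5d5c5b5a5e58595756555352545150898788868584838182807e7f7d7c777b7a797875767473726f71706e6d4e4f4d4c474645444b4a4948424341403d3c3f3e3b3a3933343231373836352f302e2d2a292c2b2827252624231817161512111413100f2221201f1c1b1e1d1a190e0b0a0d0c09080706030205040100 (Nat.mul 8 k)) 255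
def e12 (t : ℕ) : Bool := al 146 (fun k => Nat.beq (rs12 32 (rw t k)) (rw (ts12 t) (pi12 k)))
def g12 : Bool := al 146 (fun k => cnd (Nat.beq (rs12 1 (SG k)) (SG (pi12 k))) (cnd (Nat.beq (K2 (pi12 k)) (K2 k)) (cnd (Nat.blt (pi12 k) 146) (Nat.beq (pi12 (pi12 k)) k) false) false) false)
theorem ce12 : al 32 (fun t => st e12 t) = true := by decide +kernel
theorem cg12 : g12 = true := by decide +kernel
theorem cv12 : Nat.beq (swp 1 15 0 1 (swp 1 15 4 5 (swp 1 15 7 8 (swp 1 15 11 12 GV)))) GV = true := by decide +kernel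

/-- the exchange of the vertices 2 and 3 -/
def fs23 (x : ℕ) : ℕ := (sb 6 7 (sb 3 4 (sb 1 2 x)))
def ts23 (t : ℕ) : ℕ := sb 0 1 t
def rs23 (s x : ℕ) : ℕ := (swp s 10 6 7 (swp s 10 3 4 (swp s 10 1 2 x)))
def pi23 (k : ℕ) : ℕ := Nat.land (Nat.shiftRight 0x91888987868584838f908e8d8c8b8a827c7b7a797881807f7e7d77767475737172706e6f6d6b6c6a696768664f4c4b4a49484e4d47454644434142403f3e3d3b3c3a655f5e64636261605d5b5c5a595758565554535152503938363735262425232221201e1f1d1c1a1b1934323331302f2e2c2d2b2a2829271718161415131210110f0d0e0c0b090a080705060403010200 (Nat.mul 8 k)) 255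
def e23 (t : ℕ) : Bool := al 146 (fun k => Nat.beq (rs23 32 (rw t k)) (rw (ts23 t) (pi23 k)))
def g23 : Bool := al 146 (fun k => cnd (Nat.beq (rs23 1 (SG k)) (SG (pi23 k))) (cnd (Nat.beq (K2 (pi23 k)) (K2 k)) (cnd (Nat.blt (pi23 k) 146) (Nat.beq (pi23 (pi23 k)) k) false) false) false)
theorem ce23 : al 32 (fun t => st e23 t) = true := by decide +kernel
theorem cg23 : g23 = true := by decide +kernel
theorem cv23 : Nat.beq (swp 1 15 1 2 (swp 1 15 3 4 (swp 1 15 6 7 (swp 1 15 10 11 GV)))) GV = true := by decide +kernel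

/-- the exchange of the vertices 3 and 4 -/
def fs34 (x : ℕ) : ℕ := (sb 3 9 (sb 1 8 (sb 0 7 x)))
def ts34 (t : ℕ) : ℕ := sb 0 4 t
def rs34 (s x : ℕ) : ℕ := (swp s 10 3 9 (swp s 10 1 8 (swp s 10 0 7 x)))
def pi34 (k : ℕ) : ℕ := Nat.land (Nat.shiftRight 0x8d908c8b918f8e8a807675867b74737f7e8982817d72857a71706f888784837c7978776e6d635958695d575662616c6564605554685c53526b6a67665f5e5b5a5150302f2e0e43220d0c42180b0a4b4741402120171609082d38342c2b37332a294f4e4d393635323128271f1507064a3f3e261e1d14130504463d3c251c1b121103024c494845443b3a24231a19100f0100 (Nat.mul 8 k)) 255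
def e34 (t : ℕ) : Bool := al 146 (fun k => Nat.beq (rs34 32 (rw t k)) (rw (ts34 t) (pi34 k)))
def g34 : Bool := al 146 (fun k => cnd (Nat.beq (rs34 1 (SG k)) (SG (pi34 k))) (cnd (Nat.beq (K2 (pi34 k)) (K2 k)) (cnd (Nat.blt (pi34 k) 146) (Nat.beq (pi34 (pi34 k)) k) false) false) false)
theorem ce34 : al 32 (fun t => st e34 t) = true := by decide +kernel
theorem cg34 : g34 = true := by decide +kernel
theorem cv34 : Nat.beq (swp 1 15 0 7 (swp 1 15 1 8 (swp 1 15 3 9 (swp 1 15 10 14 GV)))) GV = true := by decide +kernel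

theorem cSG : al 146 (fun k => Nat.blt (SG k) (Nat.pow 2 1024)) = true := by decide +kernel
theorem cGV : Nat.blt GV (Nat.pow 2 32768) = true := by decide +kernel

end

end Pool.Agent.H3.Y
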