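import Pool.Agent.H3.Y.Sum
import Pool.Agent.H54.L2.Cnt

/-! The upper bound for `4`-graphs. -/

set_option autoImplicit false
open Finset

namespace Pool.Agent.H3.Y
open Pool.Agent.T2H33.K6

section
variable {V : Type} [DecidableEq V]

theorem ind_sy (H : Finset (Finset V)) : Sy (ind H) where
  s1 := fun a b c d => by
    unfold ind
    rw [show ({b, a, c, d} : Finset V) = {a, b, c, d} from by ext; simp; tauto]
  s2 := fun a b c d => by
    unfold ind
    rw [show ({a, c, b, d} : Finset V) = {a, b, c, d} from by ext; simp; tauto]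
  s3 := fun a b c d => by
    unfold ind
    rw [show ({a, b, d, c} : Finset V) = {a, b, c, d} from by ext; simp; tauto]
  lt := fun a b c d => by
    unfold ind
    split_ifs <;> norm_num

theorem ind_one {H : Finset (Finset V)} {a b c d : V} (h : ind H a b c d = 1) :
    ({a, b, c, d} : Finset V) ∈ H := by
  unfold ind at h
  by_contra hc
  rw [if_neg hc] at h
  exact absurd h (by norm_num)

theorem ind_zero {H : Finset (Finset V)} {a b c d : V} (h : ind H a b c d = 0) :
    ({a, b, c, d} : Finset V) ∉ H := by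
  intro hc
  unfold ind at h
  rw [if_pos hc] at h
  exact absurd h (by norm_num)

theorem quad_eq {a b c d : V} (h : ({a, b, c, d} : Finset V).card = 4) :
    a ≠ b ∧ a ≠ c ∧ a ≠ d ∧ b ≠ c ∧ b ≠ d ∧ c ≠ d := by
  have key : ∀ p q r : V, ({p, q, r} : Finset V).card ≤ 3 := fun p q r => Finset.card_le_three
  refine ⟨?_, ?_, ?_, ?_, ?_, ?_⟩
  · rintro rfl
    rw [show ({a, a, c, d} : Finset V) = {a, c, d} from by ext; simp] at h
    have := key a c d; omega
  · rintro rfl
    rw [show ({a, b, a, d} : Finset V) = {a, b, d} from by ext; simp; tauto] at h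
    have := key a b d; omega
  · rintro rfl
    rw [show ({a, b, c, a} : Finset V) = {a, b, c} from by ext; simp; tauto] at h
    have := key a b c; omega
  · rintro rfl
    rw [show ({a, b, b, d} : Finset V) = {a, b, d} from by ext; simp] at h
    have := key a b d; omega
  · rintro rfl
    rw [show ({a, b, c, b} : Finset V) = {a, b, c} from by ext; simp; tauto] at h
    have := key a b c; omega
  · rintro rfl
    rw [show ({a, b, c, c} : Finset V) = {a, b, c} from by ext; simp] at h
    have := key a b c; omega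

theorem sub5 {a b c d e : V} (hab : a ≠ b) (hac : a ≠ c) (had : a ≠ d) (hae : a ≠ e) (hbc : b ≠ c) (hbd : b ≠ d)
    (hbe : b ≠ e) (hcd : c ≠ d) (hce : c ≠ e) (hde : d ≠ e) {T : Finset V} (hT : T ∈ ({a, b, c, d, e} : Finset V).powersetCard 4) :
    T = {a, b, c, d} ∨ T = {a, b, c, e} ∨ T = {a, b, d, e} ∨ T = {a, c, d, e} ∨ T = {b, c, d, e} := by
  obtain ⟨h1, h2⟩ := mem_powersetCard.mp hT
  have h5 : ({a, b, c, d, e} : Finset V).card = 5 := by
    rw [card_insert_of_notMem, card_insert_of_notMem, card_insert_of_notMem, card_insert_of_notMem,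
      card_singleton]
    · simp [hde]
    · simp [hcd, hce]
    · simp [hbc, hbd, hbe]
    · simp [hab, hac, had, hae]
  have hcard : (({a, b, c, d, e} : Finset V) \ T).card = 1 := by
    rw [card_sdiff_of_subset h1]; omega
  obtain ⟨v, hv⟩ := card_eq_one.mp hcard
  have hSeq : T = ({a, b, c, d, e} : Finset V).erase v := by
    rw [← sdiff_singleton_eq_erase, ← hv, Finset.sdiff_sdiff_eq_self h1]
  have hvT : v ∈ ({a, b, c, d, e} : Finset V) := by
    have : v ∈ ({a, b, c, d, e} : Finset V) \ T := by rw [hv]; exact mem_singleton_self v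
    exact (mem_sdiff.mp this).1
  simp only [mem_insert, mem_singleton] at hvT
  rcases hvT with rfl | rfl | rfl | rfl | rfl
  · right; right; right; right
    rw [hSeq]; ext w; simp only [mem_insert, mem_singleton, mem_erase]
    constructor
    · tauto
    · rintro (rfl | rfl | rfl | rfl)
      · exact ⟨hab.symm, by tauto⟩
      · exact ⟨hac.symm, by tauto⟩
      · exact ⟨had.symm, by tauto⟩
      · exact ⟨hae.symm, by tauto⟩
  · right; right; right; left
    rw [hSeq]; ext w; simp only [mem_insert, mem_singleton, mem_erase]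
    constructor
    · tauto
    · rintro (rfl | rfl | rfl | rfl)
      · exact ⟨hab, by tauto⟩
      · exact ⟨hbc.symm, by tauto⟩
      · exact ⟨hbd.symm, by tauto⟩
      · exact ⟨hbe.symm, by tauto⟩
  · right; right; left
    rw [hSeq]; ext w; simp only [mem_insert, mem_singleton, mem_erase]
    constructor
    · tauto
    · rintro (rfl | rfl | rfl | rfl)
      · exact ⟨hac, by tauto⟩
      · exact ⟨hbc, by tauto⟩
      · exact ⟨hcd.symm, by tauto⟩
      · exact ⟨hce.symm, by tauto⟩
  · right; left
    rw [hSeq]; ext w; simp only [mem_insert, mem_singleton, mem_erase]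
    constructor
    · tauto
    · rintro (rfl | rfl | rfl | rfl)
      · exact ⟨had, by tauto⟩
      · exact ⟨hbd, by tauto⟩
      · exact ⟨hcd, by tauto⟩
      · exact ⟨hde.symm, by tauto⟩
  · left
    rw [hSeq]; ext w; simp only [mem_insert, mem_singleton, mem_erase]
    constructor
    · tauto
    · rintro (rfl | rfl | rfl | rfl)
      · exact ⟨hae, by tauto⟩
      · exact ⟨hbe, by tauto⟩
      · exact ⟨hce, by tauto⟩
      · exact ⟨hde, by tauto⟩

theorem ind_nk {H : Finset (Finset V)} (h4 : FourGraph H) (hK : K5Free H) : NK (ind H) := by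
  rintro a b c d e ⟨h1, h2, h3, h5, h6⟩
  have k1 := ind_one h1
  have k2 := ind_one h2
  have k3 := ind_one h3
  have k5 := ind_one h5
  have k6 := ind_one h6
  obtain ⟨ab, ac, ad, bc, bd, cd'⟩ := quad_eq (h4 _ k1)
  obtain ⟨-, -, ae, -, be, ce⟩ := quad_eq (h4 _ k2)
  obtain ⟨-, -, -, -, -, de⟩ := quad_eq (h4 _ k3)
  have hT : ({a, b, c, d, e} : Finset V).card = 5 := by
    rw [card_insert_of_notMem, card_insert_of_notMem, card_insert_of_notMem, card_insert_of_notMem,
      card_singleton]
    · simp [de]
    · simp [cd', ce]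
    · simp [bc, bd, be]
    · simp [ab, ac, ad, ae]
  refine hK ⟨_, hT, fun T hT' => ?_⟩
  rcases sub5 ab ac ad ae bc bd be cd' ce de hT' with rfl | rfl | rfl | rfl | rfl
  · exact k1
  · exact k2
  · exact k3
  · exact k5
  · exact k6

end

/-- **the upper bound** -/
theorem upper {V : Type} [Fintype V] [DecidableEq V] (H : Finset (Finset V)) (h4 : FourGraph H) (hK : K5Free H) :
    384 * co2 H ≤ 31 * Fintype.card V ^ 5 := by
  have h1 := main_ineq (ind_sy H) (ind_nk h4 hK)
  have h2 := Pool.Agent.H54.L2.cnt1 V H h4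
  omega

theorem up : S_UP := fun n H h4 hK => by
  have h := upper H h4 hK
  rwa [Fintype.card_fin] at h

/-- **the upper bound** with the number of the odd five-sets -/
theorem upper_odd (ho : S_ODD) {V : Type} [Fintype V] [DecidableEq V] (H : Finset (Finset V)) (h4 : FourGraph H)
    (hK : K5Free H) : 3072 * co2 H + 3 * odd5 H ≤ 248 * Fintype.card V ^ 5 := by
  have h1 := main_ineq (ind_sy H) (ind_nk h4 hK)
  have h2 := Pool.Agent.H54.L2.cnt1 V H h4
  have h3 : 120 * odd5 H ≤ O5 (ind H) := ho V H h4
  omega

end Pool.Agent.H3.Y
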