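import Pool.Agent.H3.Y.Ker
import Pool.Agent.H3.Y.K01

/-! Kernel checks, part 5. -/

set_option autoImplicit false
set_option maxRecDepth 100000
set_option linter.defProp false

namespace Pool.Agent.H3.Y

def c12 : chk 12 = true := by decide +kernel
def c119 : chk 119 = true := by decide +kernel
def c1109 : chk 1109 = true := by decide +kernel
def c1197 : chk 1197 = true := by decide +kernel
def c1460 : chk 1460 = true := by decide +kernel
def c3308 : chk 3308 = true := by decide +kernel
def c3873 : chk 3873 = true := by decide +kernel
def c7916 : chk 7916 = true := by decide +kernel

end Pool.Agent.H3.Y
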