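import Mathlib

/-! Quadratic forms which are positive semidefinite up to a diagonally dominant rest. -/

set_option autoImplicit false
open Finset

namespace Pool.Agent.H3.Y

/-- a symmetric diagonally dominant form is nonnegative -/
theorem ddform (s : Finset ℕ) (R : ℕ → ℕ → ℤ) (z : ℕ → ℤ)
    (hs : ∀ i ∈ s, ∀ j ∈ s, R i j = R j i)
    (hd : ∀ i ∈ s, ∑ j ∈ s, (if i = j then - R i i else |R i j|) ≤ 0) :
    0 ≤ ∑ i ∈ s, ∑ j ∈ s, R i j * (z i * z j) := by
  have h1 : ∀ i ∈ s, ∀ j ∈ s, - ((if i = j then - R i i else |R i j|) * (z i ^ 2 + z j ^ 2))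
      ≤ 2 * (R i j * (z i * z j)) := by
    intro i _ j _
    by_cases hij : i = j
    · subst hij
      rw [if_pos rfl]
      nlinarith
    · rw [if_neg hij]
      have a1 : |R i j| * (2 * |z i * z j|) ≤ |R i j| * (z i ^ 2 + z j ^ 2) := by
        refine mul_le_mul_of_nonneg_left ?_ (abs_nonneg _)
        rw [abs_mul]
        have := two_mul_le_add_sq (|z i|) (|z j|)
        rw [sq_abs, sq_abs] at this
        linarith
      have a2 : -(|R i j| * |z i * z j|) ≤ R i j * (z i * z j) := by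
        rw [← abs_mul]
        exact neg_abs_le _
      linarith
  have h2 : ∑ i ∈ s, ∑ j ∈ s, - ((if i = j then - R i i else |R i j|) * (z i ^ 2 + z j ^ 2))
      ≤ ∑ i ∈ s, ∑ j ∈ s, 2 * (R i j * (z i * z j)) :=
    sum_le_sum fun i hi => sum_le_sum fun j hj => h1 i hi j hj
  have h3 : ∑ i ∈ s, ∑ j ∈ s, ((if i = j then - R i i else |R i j|) * (z j ^ 2))
      = ∑ i ∈ s, ∑ j ∈ s, ((if i = j then - R i i else |R i j|) * (z i ^ 2)) := by
    rw [sum_comm]
    refine sum_congr rfl fun i hi => sum_congr rfl fun j hj => ?_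
    by_cases hij : i = j
    · subst hij; rfl
    · rw [if_neg hij, if_neg (Ne.symm hij), hs i hi j hj]
  have h4 : ∑ i ∈ s, ∑ j ∈ s, - ((if i = j then - R i i else |R i j|) * (z i ^ 2 + z j ^ 2))
      = - (2 * ∑ i ∈ s, (z i ^ 2) * ∑ j ∈ s, (if i = j then - R i i else |R i j|)) := by
    have e1 : ∑ i ∈ s, ∑ j ∈ s, - ((if i = j then - R i i else |R i j|) * (z i ^ 2 + z j ^ 2))
        = - (∑ i ∈ s, ∑ j ∈ s, ((if i = j then - R i i else |R i j|) * (z i ^ 2))
          + ∑ i ∈ s, ∑ j ∈ s, ((if i = j then - R i i else |R i j|) * (z j ^ 2))) := by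
      rw [← sum_add_distrib, ← sum_neg_distrib]
      refine sum_congr rfl fun i _ => ?_
      rw [← sum_add_distrib, ← sum_neg_distrib]
      exact sum_congr rfl fun j _ => by ring
    rw [e1, h3, ← two_mul]
    congr 2
    refine sum_congr rfl fun i _ => ?_
    rw [mul_sum]
    exact sum_congr rfl fun j _ => by ring
  rw [h4] at h2
  have h5 : ∑ i ∈ s, (z i ^ 2) * ∑ j ∈ s, (if i = j then - R i i else |R i j|) ≤ 0 :=
    sum_nonpos fun i hi => mul_nonpos_of_nonneg_of_nonpos (sq_nonneg _) (hd i hi)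
  have h6 : ∑ i ∈ s, ∑ j ∈ s, 2 * (R i j * (z i * z j)) = 2 * ∑ i ∈ s, ∑ j ∈ s, R i j * (z i * z j) := by
    simp only [mul_sum]
  rw [h6] at h2
  linarith

/-- a bilinear identity -/
theorem bilin (s t : Finset ℕ) (q W : ℕ → ℕ → ℤ) (u : ℕ → ℤ) :
    ∑ i ∈ t, ∑ j ∈ t, (∑ k ∈ s, ∑ m ∈ s, W i k * W j m * q k m) * (u i * u j)
      = ∑ k ∈ s, ∑ m ∈ s, q k m * ((∑ i ∈ t, W i k * u i) * (∑ j ∈ t, W j m * u j)) := by
  calc ∑ i ∈ t, ∑ j ∈ t, (∑ k ∈ s, ∑ m ∈ s, W i k * W j m * q k m) * (u i * u j)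
      = ∑ i ∈ t, ∑ j ∈ t, ∑ k ∈ s, ∑ m ∈ s, q k m * ((W i k * u i) * (W j m * u j)) := by
        refine sum_congr rfl fun i _ => sum_congr rfl fun j _ => ?_
        rw [sum_mul]
        refine sum_congr rfl fun k _ => ?_
        rw [sum_mul]
        exact sum_congr rfl fun m _ => by ring
    _ = ∑ i ∈ t, ∑ k ∈ s, ∑ j ∈ t, ∑ m ∈ s, q k m * ((W i k * u i) * (W j m * u j)) :=
        sum_congr rfl fun i _ => sum_comm
    _ = ∑ k ∈ s, ∑ i ∈ t, ∑ j ∈ t, ∑ m ∈ s, q k m * ((W i k * u i) * (W j m * u j)) := sum_comm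
    _ = ∑ k ∈ s, ∑ i ∈ t, ∑ m ∈ s, ∑ j ∈ t, q k m * ((W i k * u i) * (W j m * u j)) :=
        sum_congr rfl fun k _ => sum_congr rfl fun i _ => sum_comm
    _ = ∑ k ∈ s, ∑ m ∈ s, ∑ i ∈ t, ∑ j ∈ t, q k m * ((W i k * u i) * (W j m * u j)) :=
        sum_congr rfl fun k _ => sum_comm
    _ = _ := by
        refine sum_congr rfl fun k _ => sum_congr rfl fun m _ => ?_
        rw [Finset.sum_mul_sum, mul_sum]
        refine sum_congr rfl fun i _ => ?_
        rw [mul_sum]

/-- a form which is determined, by integral relations, by its restriction to a set of indices, where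
a multiple of it is a sum of squares and a diagonally dominant form -/
theorem psdW (n K : ℕ) (q l W : ℕ → ℕ → ℤ) (N : ℕ → Bool) (D w0 : ℤ) (hD : 0 < D) (hw : 0 < w0)
    (hsym : ∀ i < n, ∀ j < n, q i j = q j i)
    (hW0 : ∀ i < n, ∀ k < n, N k = false → W i k = 0)
    (hW : ∀ i < n, ∀ j < n, w0 * q i j = ∑ k ∈ range n, W i k * q k j)
    (hdd : ∀ i < n, N i = true → ∑ j ∈ range n, (if i = j ∨ N j = false then 0
      else |D * q i j - ∑ k ∈ range K, l i k * l j k|) ≤ D * q i i - ∑ k ∈ range K, l i k * l i k)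
    (u : ℕ → ℤ) : 0 ≤ ∑ i ∈ range n, ∑ j ∈ range n, q i j * (u i * u j) := by
  classical
  set s := (range n).filter (fun i => N i = true) with hs
  set z : ℕ → ℤ := fun k => ∑ i ∈ range n, W i k * u i with hz
  have hsn : ∀ i ∈ s, i < n := fun i hi => mem_range.mp (mem_filter.mp hi).1
  have r1 : ∀ i < n, ∀ j < n, w0 * q i j = ∑ k ∈ s, W i k * q k j := by
    intro i hi j hj
    rw [hW i hi j hj, hs, sum_filter]
    refine sum_congr rfl fun k hk => ?_
    by_cases h : N k = true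
    · rw [if_pos h]
    · rw [if_neg h, hW0 i hi k (mem_range.mp hk) (by simpa using h), zero_mul]
  have r2 : ∀ i < n, ∀ j < n, w0 * (w0 * q i j) = ∑ k ∈ s, ∑ m ∈ s, W i k * W j m * q k m := by
    intro i hi j hj
    rw [r1 i hi j hj, mul_sum]
    refine sum_congr rfl fun k hk => ?_
    have h := r1 j hj k (hsn k hk)
    rw [hsym k (hsn k hk) j hj, mul_left_comm, h, mul_sum]
    refine sum_congr rfl fun m hm => ?_
    rw [hsym m (hsn m hm) k (hsn k hk)]
    ring
  have e3 : w0 * (w0 * ∑ i ∈ range n, ∑ j ∈ range n, q i j * (u i * u j)) = ∑ i ∈ s, ∑ j ∈ s, q i j * (z i * z j) := by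
    rw [← bilin s (range n) q W u]
    simp only [mul_sum]
    refine sum_congr rfl fun i hi => sum_congr rfl fun j hj => ?_
    rw [← r2 i (mem_range.mp hi) j (mem_range.mp hj)]
    ring
  have e4 : ∑ i ∈ s, ∑ j ∈ s, (∑ k ∈ range K, l i k * l j k) * (z i * z j)
      = ∑ k ∈ range K, (∑ i ∈ s, l i k * z i) ^ 2 := by
    calc ∑ i ∈ s, ∑ j ∈ s, (∑ k ∈ range K, l i k * l j k) * (z i * z j)
        = ∑ i ∈ s, ∑ j ∈ s, ∑ k ∈ range K, (l i k * z i) * (l j k * z j) := by
          refine sum_congr rfl fun i _ => sum_congr rfl fun j _ => ?_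
          rw [sum_mul]
          exact sum_congr rfl fun k _ => by ring
      _ = ∑ i ∈ s, ∑ k ∈ range K, ∑ j ∈ s, (l i k * z i) * (l j k * z j) :=
          sum_congr rfl fun i _ => sum_comm
      _ = ∑ k ∈ range K, ∑ i ∈ s, ∑ j ∈ s, (l i k * z i) * (l j k * z j) := sum_comm
      _ = _ := by
          refine sum_congr rfl fun k _ => ?_
          rw [sq, Finset.sum_mul_sum]
  have e5 : D * ∑ i ∈ s, ∑ j ∈ s, q i j * (z i * z j) = ∑ k ∈ range K, (∑ i ∈ s, l i k * z i) ^ 2
      + ∑ i ∈ s, ∑ j ∈ s, (D * q i j - ∑ k ∈ range K, l i k * l j k) * (z i * z j) := by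
    rw [← e4, ← sum_add_distrib, mul_sum]
    refine sum_congr rfl fun i _ => ?_
    rw [← sum_add_distrib, mul_sum]
    exact sum_congr rfl fun j _ => by ring
  have h6 : 0 ≤ ∑ k ∈ range K, (∑ i ∈ s, l i k * z i) ^ 2 := sum_nonneg fun k _ => sq_nonneg _
  have h7 : 0 ≤ ∑ i ∈ s, ∑ j ∈ s, (D * q i j - ∑ k ∈ range K, l i k * l j k) * (z i * z j) := by
    refine ddform s (fun i j => D * q i j - ∑ k ∈ range K, l i k * l j k) z ?_ ?_
    · intro i hi j hj
      show D * q i j - _ = D * q j i - _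
      rw [hsym i (hsn i hi) j (hsn j hj)]
      congr 1
      exact sum_congr rfl fun k _ => mul_comm _ _
    · intro i hi
      obtain ⟨hi1, hi2⟩ := mem_filter.mp hi
      have hi' := mem_range.mp hi1
      have h := hdd i hi' hi2
      have c1 : ∑ j ∈ range n, (if i = j ∨ N j = false then 0
          else |D * q i j - ∑ k ∈ range K, l i k * l j k|) = ∑ j ∈ s, (if i = j then 0
          else |D * q i j - ∑ k ∈ range K, l i k * l j k|) := by
        rw [hs, sum_filter]
        refine sum_congr rfl fun j _ => ?_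
        by_cases h1 : i = j <;> by_cases h2 : N j = true <;> simp [h1, h2]
      have c2 : ∑ j ∈ s, (if i = j then -(D * q i i - ∑ k ∈ range K, l i k * l i k)
          else |D * q i j - ∑ k ∈ range K, l i k * l j k|) = ∑ j ∈ s, (if i = j then 0
          else |D * q i j - ∑ k ∈ range K, l i k * l j k|)
          + ∑ j ∈ s, (if i = j then -(D * q i i - ∑ k ∈ range K, l i k * l i k) else 0) := by
        rw [← sum_add_distrib]
        refine sum_congr rfl fun j _ => ?_
        by_cases h1 : i = j <;> simp [h1]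
      have c3 : ∑ j ∈ s, (if i = j then -(D * q i i - ∑ k ∈ range K, l i k * l i k) else 0)
          = -(D * q i i - ∑ k ∈ range K, l i k * l i k) := by
        rw [sum_ite_eq, if_pos hi]
      show ∑ j ∈ s, (if i = j then -(D * q i i - ∑ k ∈ range K, l i k * l i k)
          else |D * q i j - ∑ k ∈ range K, l i k * l j k|) ≤ 0
      rw [c2, c3, ← c1]
      linarith
  have h8 : 0 ≤ D * (w0 * (w0 * ∑ i ∈ range n, ∑ j ∈ range n, q i j * (u i * u j))) := by
    rw [e3, e5]
    linarith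
  have h9 := nonneg_of_mul_nonneg_right h8 hD
  exact nonneg_of_mul_nonneg_right (nonneg_of_mul_nonneg_right h9 hw) hw

end Pool.Agent.H3.Y
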