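import Pool.Agent.H3.Y.Sym4
import Pool.Agent.H3.Y.K00
import Pool.Agent.H3.Y.K01
import Pool.Agent.H3.Y.K02
import Pool.Agent.H3.Y.K03
import Pool.Agent.H3.Y.K04
import Pool.Agent.H3.Y.K05
import Pool.Agent.H3.Y.K06
import Pool.Agent.H3.Y.K07
import Pool.Agent.H3.Y.K08
import Pool.Agent.H3.Y.K09
import Pool.Agent.H3.Y.K10
import Pool.Agent.H3.Y.K11
import Pool.Agent.H3.Y.K12
import Pool.Agent.H3.Y.K13
import Pool.Agent.H3.Y.K14
import Pool.Agent.H3.Y.K15

/-! All the structures on six vertices are equivalent to one of the representatives. -/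

set_option autoImplicit false
set_option maxRecDepth 100000
set_option exponentiation.threshold 200000
set_option linter.unusedSimpArgs false
open Finset

namespace Pool.Agent.H3.Y
open Pool.Agent.T2H33.K6

noncomputable section

variable {V : Type} {E : V → V → V → V → ℕ}

/-- invariance of a property of six vertices under permutations -/
structure Inv (Φ : V → V → V → V → V → V → Prop) : Prop where
  ab : ∀ a b c d e f, Φ b a c d e f → Φ a b c d e f
  bc : ∀ a b c d e f, Φ a c b d e f → Φ a b c d e f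
  cd : ∀ a b c d e f, Φ a b d c e f → Φ a b c d e f
  de : ∀ a b c d e f, Φ a b c e d f → Φ a b c d e f
  ef : ∀ a b c d e f, Φ a b c d f e → Φ a b c d e f

/-- the property holds for the structures with codes in `N` -/
def Good (E : V → V → V → V → ℕ) (Φ : V → V → V → V → V → V → Prop) (N : ℕ) : Prop :=
  N < 2 ^ 32768 ∧ ∀ m, N.testBit m = true → ∀ a b c d e f, kk E a b c d e f = m → Φ a b c d e f

variable {Φ : V → V → V → V → V → V → Prop}

theorem Good.lor {N M : ℕ} (h : Good E Φ N) (k : Good E Φ M) : Good E Φ (Nat.lor N M) := by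
  refine ⟨Nat.or_lt_two_pow h.1 k.1, fun m hm => ?_⟩
  have hm' : (N ||| M).testBit m = true := hm
  rw [Nat.testBit_or, Bool.or_eq_true] at hm'
  exact hm'.elim (h.2 m) (k.2 m)

theorem good_pow {m : ℕ} (hm : m < 2 ^ 15) (h : ∀ a b c d e f, kk E a b c d e f = m → Φ a b c d e f) : Good E Φ (Nat.pow 2 m) := by
  refine ⟨Nat.pow_lt_pow_right (by norm_num) (lt_of_lt_of_eq hm (by norm_num)), fun k hk => ?_⟩
  have hk' : (2 ^ m).testBit k = true := hk
  rw [Nat.testBit_two_pow, decide_eq_true_eq] at hk'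
  subst hk'
  exact h

theorem swp_tb {N p q : ℕ} (hN : N < 2 ^ 32768) (hpq : p < q) (hq : q < 15) :
    swp 1 15 p q N < 2 ^ 32768 ∧ ∀ m, (swp 1 15 p q N).testBit m = true → m < 2 ^ 15 ∧ N.testBit (sb p q m) = true := by
  have e : enc 1 15 (fld 1 N) = N := enc_fld (by norm_num) (lt_of_lt_of_eq hN (by norm_num))
  have h := swp_enc (s := 1) (n := 15) (by norm_num) hpq hq (f := fld 1 N) (fun i _ => fld_lt _ _ _)
  rw [e] at h
  rw [h]
  constructor
  · refine lt_of_lt_of_eq (enc_lt (s := 1) (n := 15) fun i _ => fld_lt _ _ _) (by norm_num)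
  intro m hm
  rw [enc_testBit (by norm_num) (fun i _ => fld_lt _ _ _), Bool.and_eq_true, decide_eq_true_eq, Nat.div_one,
    Nat.mod_one, fld_testBit, Bool.and_eq_true, Nat.zero_add, Nat.one_mul] at hm
  exact ⟨hm.1, hm.2.2⟩

/-- the codes after the exchange of the vertices 0 and 1 -/
def s01 (N : ℕ) : ℕ := (swp 1 15 1 3 (swp 1 15 2 4 (swp 1 15 8 9 (swp 1 15 12 13 N))))

theorem good_s01 (hE : Sy E) (hI : Inv Φ) {N : ℕ} (h : Good E Φ N) : Good E Φ (s01 N) := by
  obtain ⟨h1, h2⟩ := h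
  have k0 := swp_tb (p := 12) (q := 13) h1 (by norm_num) (by norm_num)
  have k1 := swp_tb (p := 8) (q := 9) k0.1 (by norm_num) (by norm_num)
  have k2 := swp_tb (p := 2) (q := 4) k1.1 (by norm_num) (by norm_num)
  have k3 := swp_tb (p := 1) (q := 3) k2.1 (by norm_num) (by norm_num)
  refine ⟨k3.1, fun m hm => ?_⟩
  have m3 := (k3.2 _ hm).2
  have m2 := (k2.2 _ m3).2
  have m1 := (k1.2 _ m2).2
  have m0 := (k0.2 _ m1).2
  have hp := h2 _ m0
  intro a b c d e f hk
  refine hI.ab _ _ _ _ _ _ (hp b a c d e f ?_)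
  rw [← pc01_kk hE, hk]
  rfl

/-- the codes after the exchange of the vertices 1 and 2 -/
def s12 (N : ℕ) : ℕ := (swp 1 15 0 1 (swp 1 15 4 5 (swp 1 15 7 8 (swp 1 15 11 12 N))))

theorem good_s12 (hE : Sy E) (hI : Inv Φ) {N : ℕ} (h : Good E Φ N) : Good E Φ (s12 N) := by
  obtain ⟨h1, h2⟩ := h
  have k0 := swp_tb (p := 11) (q := 12) h1 (by norm_num) (by norm_num)
  have k1 := swp_tb (p := 7) (q := 8) k0.1 (by norm_num) (by norm_num)
  have k2 := swp_tb (p := 4) (q := 5) k1.1 (by norm_num) (by norm_num)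
  have k3 := swp_tb (p := 0) (q := 1) k2.1 (by norm_num) (by norm_num)
  refine ⟨k3.1, fun m hm => ?_⟩
  have m3 := (k3.2 _ hm).2
  have m2 := (k2.2 _ m3).2
  have m1 := (k1.2 _ m2).2
  have m0 := (k0.2 _ m1).2
  have hp := h2 _ m0
  intro a b c d e f hk
  refine hI.bc _ _ _ _ _ _ (hp a c b d e f ?_)
  rw [← pc12_kk hE, hk]
  rfl

/-- the codes after the exchange of the vertices 2 and 3 -/
def s23 (N : ℕ) : ℕ := (swp 1 15 1 2 (swp 1 15 3 4 (swp 1 15 6 7 (swp 1 15 10 11 N))))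

theorem good_s23 (hE : Sy E) (hI : Inv Φ) {N : ℕ} (h : Good E Φ N) : Good E Φ (s23 N) := by
  obtain ⟨h1, h2⟩ := h
  have k0 := swp_tb (p := 10) (q := 11) h1 (by norm_num) (by norm_num)
  have k1 := swp_tb (p := 6) (q := 7) k0.1 (by norm_num) (by norm_num)
  have k2 := swp_tb (p := 3) (q := 4) k1.1 (by norm_num) (by norm_num)
  have k3 := swp_tb (p := 1) (q := 2) k2.1 (by norm_num) (by norm_num)
  refine ⟨k3.1, fun m hm => ?_⟩
  have m3 := (k3.2 _ hm).2
  have m2 := (k2.2 _ m3).2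
  have m1 := (k1.2 _ m2).2
  have m0 := (k0.2 _ m1).2
  have hp := h2 _ m0
  intro a b c d e f hk
  refine hI.cd _ _ _ _ _ _ (hp a b d c e f ?_)
  rw [← pc23_kk hE, hk]
  rfl

/-- the codes after the exchange of the vertices 3 and 4 -/
def s34 (N : ℕ) : ℕ := (swp 1 15 0 7 (swp 1 15 1 8 (swp 1 15 3 9 (swp 1 15 10 14 N))))

theorem good_s34 (hE : Sy E) (hI : Inv Φ) {N : ℕ} (h : Good E Φ N) : Good E Φ (s34 N) := by
  obtain ⟨h1, h2⟩ := h
  have k0 := swp_tb (p := 10) (q := 14) h1 (by norm_num) (by norm_num)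
  have k1 := swp_tb (p := 3) (q := 9) k0.1 (by norm_num) (by norm_num)
  have k2 := swp_tb (p := 1) (q := 8) k1.1 (by norm_num) (by norm_num)
  have k3 := swp_tb (p := 0) (q := 7) k2.1 (by norm_num) (by norm_num)
  refine ⟨k3.1, fun m hm => ?_⟩
  have m3 := (k3.2 _ hm).2
  have m2 := (k2.2 _ m3).2
  have m1 := (k1.2 _ m2).2
  have m0 := (k0.2 _ m1).2
  have hp := h2 _ m0
  intro a b c d e f hk
  refine hI.de _ _ _ _ _ _ (hp a b c e d f ?_)
  rw [← pc34_kk hE, hk]
  rfl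

/-- the codes after the exchange of the vertices 4 and 5 -/
def s45 (N : ℕ) : ℕ := (swp 1 15 6 10 (swp 1 15 7 11 (swp 1 15 8 12 (swp 1 15 9 13 N))))

theorem good_s45 (hE : Sy E) (hI : Inv Φ) {N : ℕ} (h : Good E Φ N) : Good E Φ (s45 N) := by
  obtain ⟨h1, h2⟩ := h
  have k0 := swp_tb (p := 9) (q := 13) h1 (by norm_num) (by norm_num)
  have k1 := swp_tb (p := 8) (q := 12) k0.1 (by norm_num) (by norm_num)
  have k2 := swp_tb (p := 7) (q := 11) k1.1 (by norm_num) (by norm_num)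
  have k3 := swp_tb (p := 6) (q := 10) k2.1 (by norm_num) (by norm_num)
  refine ⟨k3.1, fun m hm => ?_⟩
  have m3 := (k3.2 _ hm).2
  have m2 := (k2.2 _ m3).2
  have m1 := (k1.2 _ m2).2
  have m0 := (k0.2 _ m1).2
  have hp := h2 _ m0
  intro a b c d e f hk
  refine hI.ef _ _ _ _ _ _ (hp a b c d f e ?_)
  rw [← pc45_kk hE, hk]
  rfl

/-- one round -/
def RD (N : ℕ) : ℕ := st (fun N => Nat.lor N (Nat.lor (s01 N) (Nat.lor (s12 N) (Nat.lor (s23 N) (Nat.lor (s34 N) (s45 N)))))) N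

theorem good_RD (hE : Sy E) (hI : Inv Φ) {N : ℕ} (h : Good E Φ N) : Good E Φ (RD N) := by
  unfold RD
  rw [st_eq]
  exact h.lor ((good_s01 hE hI h).lor ((good_s12 hE hI h).lor ((good_s23 hE hI h).lor ((good_s34 hE hI h).lor (good_s45 hE hI h)))))

theorem cv45 : Nat.beq (s45 GV) GV = true := by decide +kernel

attribute [local irreducible] GV FS rw K2 SG

theorem gP_ef (hE : Sy E) (a b c d e f : V) : gP (kk E a b c d f e) = gP (kk E a b c d e f) := by
  have key : fld 1 GV (pc45 (kk E a b c d e f)) = fld 1 GV (kk E a b c d e f) :=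
   GV_inv (p1 := 6) (q1 := 10) (p2 := 7) (q2 := 11) (p3 := 8) (q3 := 12) (p4 := 9) (q4 := 13)
    (by norm_num) (by norm_num) (by norm_num) (by norm_num) (by norm_num) (by norm_num) (by norm_num) (by norm_num)
    GV_lt (Nat.eq_of_beq_eq_true cv45) (kk_lt hE a b c d e f)
  rw [gP_eq (kk_lt hE _ _ _ _ _ _), gP_eq (kk_lt hE _ _ _ _ _ _), ← pc45_kk hE a b c d e f, bt_fld, bt_fld, key]

/-- the pointwise inequality -/
def Ph (E : V → V → V → V → ℕ) (a b c d e f : V) : Prop := ∀ z, W0 E a b c d e f z + gP (kk E a b c d e f) ≤ 1864358762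

theorem Ph_inv (hE : Sy E) : Inv (Ph E) where
  ab := fun a b c d e f h z => by
    have := h z
    rwa [W0_ab hE, gP_ab hE] at this
  bc := fun a b c d e f h z => by
    have := h z
    rwa [W0_bc hE, gP_bc hE] at this
  cd := fun a b c d e f h z => by
    have := h z
    rwa [W0_cd hE, gP_cd hE] at this
  de := fun a b c d e f h z => by
    have := h z
    rwa [W0_de hE, gP_de hE] at this
  ef := fun a b c d e f h z => by
    have := h z
    rwa [W0_ef hE, gP_ef hE] at this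

theorem good_rep (hE : Sy E) {m : ℕ} (hm : m < 2 ^ 15) (h : chk m = true) : Good E (Ph E) (Nat.pow 2 m) :=
  good_pow hm fun a b c d e f hk z => by
    have := chk_le hE hm h (z := z) hk
    rw [gP_eq (kk_lt hE a b c d e f), hk]
    exact this

def R0 : ℕ := (Nat.lor (Nat.pow 2 0) (Nat.lor (Nat.pow 2 1) (Nat.lor (Nat.pow 2 3) (Nat.lor (Nat.pow 2 7) (Nat.lor (Nat.pow 2 11) (Nat.lor (Nat.pow 2 12) (Nat.lor (Nat.pow 2 13) (Nat.lor (Nat.pow 2 15) (Nat.lor (Nat.pow 2 30) (Nat.lor (Nat.pow 2 31) (Nat.lor (Nat.pow 2 63) (Nat.lor (Nat.pow 2 75) (Nat.lor (Nat.pow 2 76) (Nat.lor (Nat.pow 2 77) (Nat.lor (Nat.pow 2 79) (Nat.pow 2 86))))))))))))))))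
theorem good_R0 (hE : Sy E) : Good E (Ph E) R0 := ((good_rep hE (by norm_num) c0).lor ((good_rep hE (by norm_num) c1).lor ((good_rep hE (by norm_num) c3).lor ((good_rep hE (by norm_num) c7).lor ((good_rep hE (by norm_num) c11).lor ((good_rep hE (by norm_num) c12).lor ((good_rep hE (by norm_num) c13).lor ((good_rep hE (by norm_num) c15).lor ((good_rep hE (by norm_num) c30).lor ((good_rep hE (by norm_num) c31).lor ((good_rep hE (by norm_num) c63).lor ((good_rep hE (by norm_num) c75).lor ((good_rep hE (by norm_num) c76).lor ((good_rep hE (by norm_num) c77).lor ((good_rep hE (by norm_num) c79).lor (good_rep hE (by norm_num) c86))))))))))))))))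
def R1 : ℕ := (Nat.lor (Nat.pow 2 87) (Nat.lor (Nat.pow 2 94) (Nat.lor (Nat.pow 2 95) (Nat.lor (Nat.pow 2 116) (Nat.lor (Nat.pow 2 117) (Nat.lor (Nat.pow 2 119) (Nat.lor (Nat.pow 2 127) (Nat.lor (Nat.pow 2 222) (Nat.lor (Nat.pow 2 223) (Nat.lor (Nat.pow 2 235) (Nat.lor (Nat.pow 2 236) (Nat.lor (Nat.pow 2 237) (Nat.lor (Nat.pow 2 239) (Nat.lor (Nat.pow 2 254) (Nat.lor (Nat.pow 2 255) (Nat.pow 2 507))))))))))))))))
theorem good_R1 (hE : Sy E) : Good E (Ph E) R1 := ((good_rep hE (by norm_num) c87).lor ((good_rep hE (by norm_num) c94).lor ((good_rep hE (by norm_num) c95).lor ((good_rep hE (by norm_num) c116).lor ((good_rep hE (by norm_num) c117).lor ((good_rep hE (by norm_num) c119).lor ((good_rep hE (by norm_num) c127).lor ((good_rep hE (by norm_num) c222).lor ((good_rep hE (by norm_num) c223).lor ((good_rep hE (by norm_num) c235).lor ((good_rep hE (by norm_num) c236).lor ((good_rep hE (by norm_num) c237).lor ((good_rep hE (by norm_num)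 c239).lor ((good_rep hE (by norm_num) c254).lor ((good_rep hE (by norm_num) c255).lor (good_rep hE (by norm_num) c507))))))))))))))))
def R2 : ℕ := (Nat.lor (Nat.pow 2 511) (Nat.lor (Nat.pow 2 1023) (Nat.lor (Nat.pow 2 1100) (Nat.lor (Nat.pow 2 1101) (Nat.lor (Nat.pow 2 1108) (Nat.lor (Nat.pow 2 1109) (Nat.lor (Nat.pow 2 1110) (Nat.lor (Nat.pow 2 1111) (Nat.lor (Nat.pow 2 1118) (Nat.lor (Nat.pow 2 1140) (Nat.lor (Nat.pow 2 1141) (Nat.lor (Nat.pow 2 1143) (Nat.lor (Nat.pow 2 1182) (Nat.lor (Nat.pow 2 1183) (Nat.lor (Nat.pow 2 1184) (Nat.pow 2 1185))))))))))))))))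
theorem good_R2 (hE : Sy E) : Good E (Ph E) R2 := ((good_rep hE (by norm_num) c511).lor ((good_rep hE (by norm_num) c1023).lor ((good_rep hE (by norm_num) c1100).lor ((good_rep hE (by norm_num) c1101).lor ((good_rep hE (by norm_num) c1108).lor ((good_rep hE (by norm_num) c1109).lor ((good_rep hE (by norm_num) c1110).lor ((good_rep hE (by norm_num) c1111).lor ((good_rep hE (by norm_num) c1118).lor ((good_rep hE (by norm_num) c1140).lor ((good_rep hE (by norm_num) c1141).lor ((good_rep hE (by norm_num) c1143).lor ((good_rep hE (by norm_num) c1182).lor ((good_rep hE (by norm_num) c1183).lor ((good_rep hE (by norm_num) c1184).lor (good_rep hE (by norm_num) c1185))))))))))))))))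
def R3 : ℕ := (Nat.lor (Nat.pow 2 1187) (Nat.lor (Nat.pow 2 1191) (Nat.lor (Nat.pow 2 1194) (Nat.lor (Nat.pow 2 1195) (Nat.lor (Nat.pow 2 1196) (Nat.lor (Nat.pow 2 1197) (Nat.lor (Nat.pow 2 1198) (Nat.lor (Nat.pow 2 1199) (Nat.lor (Nat.pow 2 1214) (Nat.lor (Nat.pow 2 1215) (Nat.lor (Nat.pow 2 1246) (Nat.lor (Nat.pow 2 1260) (Nat.lor (Nat.pow 2 1261) (Nat.lor (Nat.pow 2 1268) (Nat.lor (Nat.pow 2 1269) (Nat.pow 2 1270))))))))))))))))
theorem good_R3 (hE : Sy E) : Good E (Ph E) R3 := ((good_rep hE (by norm_num) c1187).lor ((good_rep hE (by norm_num) c1191).lor ((good_rep hE (by norm_num) c1194).lor ((good_rep hE (by norm_num) c1195).lor ((good_rep hE (by norm_num) c1196).lor ((good_rep hE (by norm_num) c1197).lor ((good_rep hE (by norm_num) c1198).lor ((good_rep hE (by norm_num) c1199).lor ((good_rep hE (by norm_num) c1214).lor ((good_rep hE (by norm_num) c1215).lor ((good_rep hE (by norm_num) c1246).lor ((good_rep hE (by norm_num)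 c1260).lor ((good_rep hE (by norm_num) c1261).lor ((good_rep hE (by norm_num) c1268).lor ((good_rep hE (by norm_num) c1269).lor (good_rep hE (by norm_num) c1270))))))))))))))))
def R4 : ℕ := (Nat.lor (Nat.pow 2 1271) (Nat.lor (Nat.pow 2 1278) (Nat.lor (Nat.pow 2 1456) (Nat.lor (Nat.pow 2 1457) (Nat.lor (Nat.pow 2 1459) (Nat.lor (Nat.pow 2 1460) (Nat.lor (Nat.pow 2 1461) (Nat.lor (Nat.pow 2 1463) (Nat.lor (Nat.pow 2 1465) (Nat.lor (Nat.pow 2 1467) (Nat.lor (Nat.pow 2 1468) (Nat.lor (Nat.pow 2 1469) (Nat.lor (Nat.pow 2 1471) (Nat.lor (Nat.pow 2 1532) (Nat.lor (Nat.pow 2 1533) (Nat.pow 2 1972))))))))))))))))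
theorem good_R4 (hE : Sy E) : Good E (Ph E) R4 := ((good_rep hE (by norm_num) c1271).lor ((good_rep hE (by norm_num) c1278).lor ((good_rep hE (by norm_num) c1456).lor ((good_rep hE (by norm_num) c1457).lor ((good_rep hE (by norm_num) c1459).lor ((good_rep hE (by norm_num) c1460).lor ((good_rep hE (by norm_num) c1461).lor ((good_rep hE (by norm_num) c1463).lor ((good_rep hE (by norm_num) c1465).lor ((good_rep hE (by norm_num) c1467).lor ((good_rep hE (by norm_num) c1468).lor ((good_rep hE (by norm_num) c1469).lor ((good_rep hE (by norm_num) c1471).lor ((good_rep hE (by norm_num) c1532).lor ((good_rep hE (by norm_num) c1533).lor (good_rep hE (by norm_num) c1972))))))))))))))))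
def R5 : ℕ := (Nat.lor (Nat.pow 2 1973) (Nat.lor (Nat.pow 2 1975) (Nat.lor (Nat.pow 2 1983) (Nat.lor (Nat.pow 2 3294) (Nat.lor (Nat.pow 2 3306) (Nat.lor (Nat.pow 2 3308) (Nat.lor (Nat.pow 2 3309) (Nat.lor (Nat.pow 2 3310) (Nat.lor (Nat.pow 2 3326) (Nat.lor (Nat.pow 2 3440) (Nat.lor (Nat.pow 2 3441) (Nat.lor (Nat.pow 2 3443) (Nat.lor (Nat.pow 2 3447) (Nat.lor (Nat.pow 2 3448) (Nat.lor (Nat.pow 2 3449) (Nat.pow 2 3452))))))))))))))))
theorem good_R5 (hE : Sy E) : Good E (Ph E) R5 := ((good_rep hE (by norm_num) c1973).lor ((good_rep hE (by norm_num) c1975).lor ((good_rep hE (by norm_num) c1983).lor ((good_rep hE (by norm_num) c3294).lor ((good_rep hE (by norm_num) c3306).lor ((good_rep hE (by norm_num) c3308).lor ((good_rep hE (by norm_num) c3309).lor ((good_rep hE (by norm_num) c3310).lor ((good_rep hE (by norm_num) c3326).lor ((good_rep hE (by norm_num) c3440).lor ((good_rep hE (by norm_num) c3441).lor ((good_rep hE (by norm_num)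 c3443).lor ((good_rep hE (by norm_num) c3447).lor ((good_rep hE (by norm_num) c3448).lor ((good_rep hE (by norm_num) c3449).lor (good_rep hE (by norm_num) c3452))))))))))))))))
def R6 : ℕ := (Nat.lor (Nat.pow 2 3453) (Nat.lor (Nat.pow 2 3576) (Nat.lor (Nat.pow 2 3577) (Nat.lor (Nat.pow 2 3578) (Nat.lor (Nat.pow 2 3582) (Nat.lor (Nat.pow 2 3873) (Nat.lor (Nat.pow 2 3875) (Nat.lor (Nat.pow 2 3879) (Nat.lor (Nat.pow 2 3885) (Nat.lor (Nat.pow 2 3887) (Nat.lor (Nat.pow 2 3903) (Nat.lor (Nat.pow 2 3948) (Nat.lor (Nat.pow 2 3949) (Nat.lor (Nat.pow 2 3950) (Nat.lor (Nat.pow 2 3958) (Nat.pow 2 3959))))))))))))))))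
theorem good_R6 (hE : Sy E) : Good E (Ph E) R6 := ((good_rep hE (by norm_num) c3453).lor ((good_rep hE (by norm_num) c3576).lor ((good_rep hE (by norm_num) c3577).lor ((good_rep hE (by norm_num) c3578).lor ((good_rep hE (by norm_num) c3582).lor ((good_rep hE (by norm_num) c3873).lor ((good_rep hE (by norm_num) c3875).lor ((good_rep hE (by norm_num) c3879).lor ((good_rep hE (by norm_num) c3885).lor ((good_rep hE (by norm_num) c3887).lor ((good_rep hE (by norm_num) c3903).lor ((good_rep hE (by norm_num) c3948).lor ((good_rep hE (by norm_num) c3949).lor ((good_rep hE (by norm_num) c3950).lor ((good_rep hE (by norm_num) c3958).lor (good_rep hE (by norm_num) c3959))))))))))))))))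
def R7 : ℕ := (Nat.lor (Nat.pow 2 3966) (Nat.lor (Nat.pow 2 4094) (Nat.lor (Nat.pow 2 7672) (Nat.lor (Nat.pow 2 7673) (Nat.lor (Nat.pow 2 7902) (Nat.lor (Nat.pow 2 7916) (Nat.lor (Nat.pow 2 7917) (Nat.lor (Nat.pow 2 7934) (Nat.lor (Nat.pow 2 8185) (Nat.pow 2 16350))))))))))
theorem good_R7 (hE : Sy E) : Good E (Ph E) R7 := ((good_rep hE (by norm_num) c3966).lor ((good_rep hE (by norm_num) c4094).lor ((good_rep hE (by norm_num) c7672).lor ((good_rep hE (by norm_num) c7673).lor ((good_rep hE (by norm_num) c7902).lor ((good_rep hE (by norm_num) c7916).lor ((good_rep hE (by norm_num) c7917).lor ((good_rep hE (by norm_num) c7934).lor ((good_rep hE (by norm_num) c8185).lor (good_rep hE (by norm_num) c16350))))))))))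

/-- the representatives -/
def RR : ℕ := (Nat.lor R0 (Nat.lor R1 (Nat.lor R2 (Nat.lor R3 (Nat.lor R4 (Nat.lor R5 (Nat.lor R6 R7)))))))
theorem good_RR (hE : Sy E) : Good E (Ph E) RR := ((good_R0 hE).lor ((good_R1 hE).lor ((good_R2 hE).lor ((good_R3 hE).lor ((good_R4 hE).lor ((good_R5 hE).lor ((good_R6 hE).lor (good_R7 hE))))))))

/-- all the codes equivalent to one of the representatives -/
def CL : ℕ := (RD (RD (RD (RD (RD (RD (RD (RD (RD (RD (RD (RD (RD (RD (RD RR)))))))))))))))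
theorem good_CL (hE : Sy E) : Good E (Ph E) CL := (good_RD hE (Ph_inv hE) ((good_RD hE (Ph_inv hE) ((good_RD hE (Ph_inv hE) ((good_RD hE (Ph_inv hE) ((good_RD hE (Ph_inv hE) ((good_RD hE (Ph_inv hE) ((good_RD hE (Ph_inv hE) ((good_RD hE (Ph_inv hE) ((good_RD hE (Ph_inv hE) ((good_RD hE (Ph_inv hE) ((good_RD hE (Ph_inv hE) ((good_RD hE (Ph_inv hE) ((good_RD hE (Ph_inv hE) ((good_RD hE (Ph_inv hE) ((good_RD hE (Ph_inv hE) (good_RR hE))))))))))))))))))))))))))))))

theorem mul_lt2 {a b : ℕ} (h : a < 2) (k : b < 2) : Nat.mul a b < 2 := by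
  interval_cases a <;> interval_cases b <;> decide

theorem mul_eq1 {a b : ℕ} (h : Nat.mul a b = 1) : a = 1 ∧ b = 1 := mul_eq_one.mp h

theorem enc1_tb {f : ℕ → ℕ} (hf : ∀ i, f i < 2) {m : ℕ} (h : (enc 1 15 f).testBit m = true) : f m = 1 := by
  rw [enc_testBit (by norm_num) (fun i _ => lt_of_lt_of_eq (hf i) (by norm_num)), Bool.and_eq_true, Nat.div_one,
    Nat.mod_one] at h
  have h1 := hf m
  interval_cases hm : f m
  · rw [Nat.zero_testBit] at h; exact absurd h.2 (by decide)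
  · rfl

/-- the product of the bits of the mask 8760 -/
def mf0 (i : ℕ) : ℕ := (Nat.mul (bt 3 i) (Nat.mul (bt 4 i) (Nat.mul (bt 5 i) (Nat.mul (bt 9 i) (bt 13 i)))))
def MV0 : ℕ := asm 1 8760 15 mf0
theorem MV0_eq : MV0 = enc 1 15 mf0 := by
  refine asm_eq 1 8760 15 mf0 ?_
  intro k hk hkm x hx
  have h : ∀ j, j ≠ k → bt j (x + 2 ^ k) = bt j x := fun j hj => bt_add_pow hx hj
  clear hx
  interval_cases k <;> first
    | exact absurd hkm (by decide +kernel)
    | simp only [mf0, h 3 (by norm_num), h 4 (by norm_num), h 5 (by norm_num), h 9 (by norm_num), h 13 (by norm_num)]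

theorem mf0_lt (i : ℕ) : mf0 i < 2 := by
  have h := bt_lt_two
  unfold mf0
  refine mul_lt2 (h _ _) (mul_lt2 (h _ _) (mul_lt2 (h _ _) (mul_lt2 (h _ _) (h _ _))))

/-- the product of the bits of the mask 4390 -/
def mf1 (i : ℕ) : ℕ := (Nat.mul (bt 1 i) (Nat.mul (bt 2 i) (Nat.mul (bt 5 i) (Nat.mul (bt 8 i) (bt 12 i)))))
def MV1 : ℕ := asm 1 4390 15 mf1
theorem MV1_eq : MV1 = enc 1 15 mf1 := by
  refine asm_eq 1 4390 15 mf1 ?_
  intro k hk hkm x hx
  have h : ∀ j, j ≠ k → bt j (x + 2 ^ k) = bt j x := fun j hj => bt_add_pow hx hj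
  clear hx
  interval_cases k <;> first
    | exact absurd hkm (by decide +kernel)
    | simp only [mf1, h 1 (by norm_num), h 2 (by norm_num), h 5 (by norm_num), h 8 (by norm_num), h 12 (by norm_num)]

theorem mf1_lt (i : ℕ) : mf1 i < 2 := by
  have h := bt_lt_two
  unfold mf1
  refine mul_lt2 (h _ _) (mul_lt2 (h _ _) (mul_lt2 (h _ _) (mul_lt2 (h _ _) (h _ _))))

/-- the product of the bits of the mask 2197 -/
def mf2 (i : ℕ) : ℕ := (Nat.mul (bt 0 i) (Nat.mul (bt 2 i) (Nat.mul (bt 4 i) (Nat.mul (bt 7 i) (bt 11 i)))))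
def MV2 : ℕ := asm 1 2197 15 mf2
theorem MV2_eq : MV2 = enc 1 15 mf2 := by
  refine asm_eq 1 2197 15 mf2 ?_
  intro k hk hkm x hx
  have h : ∀ j, j ≠ k → bt j (x + 2 ^ k) = bt j x := fun j hj => bt_add_pow hx hj
  clear hx
  interval_cases k <;> first
    | exact absurd hkm (by decide +kernel)
    | simp only [mf2, h 0 (by norm_num), h 2 (by norm_num), h 4 (by norm_num), h 7 (by norm_num), h 11 (by norm_num)]

theorem mf2_lt (i : ℕ) : mf2 i < 2 := by
  have h := bt_lt_two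
  unfold mf2
  refine mul_lt2 (h _ _) (mul_lt2 (h _ _) (mul_lt2 (h _ _) (mul_lt2 (h _ _) (h _ _))))

/-- the product of the bits of the mask 1099 -/
def mf3 (i : ℕ) : ℕ := (Nat.mul (bt 0 i) (Nat.mul (bt 1 i) (Nat.mul (bt 3 i) (Nat.mul (bt 6 i) (bt 10 i)))))
def MV3 : ℕ := asm 1 1099 15 mf3
theorem MV3_eq : MV3 = enc 1 15 mf3 := by
  refine asm_eq 1 1099 15 mf3 ?_
  intro k hk hkm x hx
  have h : ∀ j, j ≠ k → bt j (x + 2 ^ k) = bt j x := fun j hj => bt_add_pow hx hj
  clear hx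
  interval_cases k <;> first
    | exact absurd hkm (by decide +kernel)
    | simp only [mf3, h 0 (by norm_num), h 1 (by norm_num), h 3 (by norm_num), h 6 (by norm_num), h 10 (by norm_num)]

theorem mf3_lt (i : ℕ) : mf3 i < 2 := by
  have h := bt_lt_two
  unfold mf3
  refine mul_lt2 (h _ _) (mul_lt2 (h _ _) (mul_lt2 (h _ _) (mul_lt2 (h _ _) (h _ _))))

/-- the product of the bits of the mask 17344 -/
def mf4 (i : ℕ) : ℕ := (Nat.mul (bt 6 i) (Nat.mul (bt 7 i) (Nat.mul (bt 8 i) (Nat.mul (bt 9 i) (bt 14 i)))))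
def MV4 : ℕ := asm 1 17344 15 mf4
theorem MV4_eq : MV4 = enc 1 15 mf4 := by
  refine asm_eq 1 17344 15 mf4 ?_
  intro k hk hkm x hx
  have h : ∀ j, j ≠ k → bt j (x + 2 ^ k) = bt j x := fun j hj => bt_add_pow hx hj
  clear hx
  interval_cases k <;> first
    | exact absurd hkm (by decide +kernel)
    | simp only [mf4, h 6 (by norm_num), h 7 (by norm_num), h 8 (by norm_num), h 9 (by norm_num), h 14 (by norm_num)]

theorem mf4_lt (i : ℕ) : mf4 i < 2 := by
  have h := bt_lt_two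
  unfold mf4
  refine mul_lt2 (h _ _) (mul_lt2 (h _ _) (mul_lt2 (h _ _) (mul_lt2 (h _ _) (h _ _))))

/-- the product of the bits of the mask 31744 -/
def mf5 (i : ℕ) : ℕ := (Nat.mul (bt 10 i) (Nat.mul (bt 11 i) (Nat.mul (bt 12 i) (Nat.mul (bt 13 i) (bt 14 i)))))
def MV5 : ℕ := asm 1 31744 15 mf5
theorem MV5_eq : MV5 = enc 1 15 mf5 := by
  refine asm_eq 1 31744 15 mf5 ?_
  intro k hk hkm x hx
  have h : ∀ j, j ≠ k → bt j (x + 2 ^ k) = bt j x := fun j hj => bt_add_pow hx hj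
  clear hx
  interval_cases k <;> first
    | exact absurd hkm (by decide +kernel)
    | simp only [mf5, h 10 (by norm_num), h 11 (by norm_num), h 12 (by norm_num), h 13 (by norm_num), h 14 (by norm_num)]

theorem mf5_lt (i : ℕ) : mf5 i < 2 := by
  have h := bt_lt_two
  unfold mf5
  refine mul_lt2 (h _ _) (mul_lt2 (h _ _) (mul_lt2 (h _ _) (mul_lt2 (h _ _) (h _ _))))

/-- the codes of structures containing five complete vertices -/
def MV : ℕ := Nat.lor MV0 (Nat.lor MV1 (Nat.lor MV2 (Nat.lor MV3 (Nat.lor MV4 MV5))))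

theorem full_ok : Nat.beq (Nat.lor CL MV) (Nat.sub (Nat.pow 2 32768) 1) = true := by decide +kernel

/-- no five vertices all of whose quadruples are present -/
def NK (E : V → V → V → V → ℕ) : Prop :=
  ∀ a b c d e, ¬ (E a b c d = 1 ∧ E a b c e = 1 ∧ E a b d e = 1 ∧ E a c d e = 1 ∧ E b c d e = 1)

theorem mf_kk (hE : Sy E) (hK : NK E) (a b c d e f : V) : mf0 (kk E a b c d e f) ≠ 1 ∧ mf1 (kk E a b c d e f) ≠ 1 ∧ mf2 (kk E a b c d e f) ≠ 1 ∧ mf3 (kk E a b c d e f) ≠ 1 ∧ mf4 (kk E a b c d e f) ≠ 1 ∧ mf5 (kk E a b c d e f) ≠ 1 := by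
  have hb : ∀ k < 15, bt k (kk E a b c d e f) = kb E a b c d e f k := fun k hk => bt_pk (fun k _ => kb_lt hE a b c d e f k) hk
  refine ⟨?_, ?_, ?_, ?_, ?_, ?_⟩
  · intro h
    obtain ⟨g3, h⟩ := mul_eq1 h
    obtain ⟨g4, h⟩ := mul_eq1 h
    obtain ⟨g5, h⟩ := mul_eq1 h
    obtain ⟨g9, g13⟩ := mul_eq1 h
    rw [hb 3 (by norm_num)] at g3
    rw [hb 4 (by norm_num)] at g4
    rw [hb 5 (by norm_num)] at g5
    rw [hb 9 (by norm_num)] at g9
    rw [hb 13 (by norm_num)] at g13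
    exact hK b c d e f ⟨g13, g9, g3, g4, g5⟩
  · intro h
    obtain ⟨g1, h⟩ := mul_eq1 h
    obtain ⟨g2, h⟩ := mul_eq1 h
    obtain ⟨g5, h⟩ := mul_eq1 h
    obtain ⟨g8, g12⟩ := mul_eq1 h
    rw [hb 1 (by norm_num)] at g1
    rw [hb 2 (by norm_num)] at g2
    rw [hb 5 (by norm_num)] at g5
    rw [hb 8 (by norm_num)] at g8
    rw [hb 12 (by norm_num)] at g12
    exact hK a c d e f ⟨g12, g8, g1, g2, g5⟩
  · intro h
    obtain ⟨g0, h⟩ := mul_eq1 h
    obtain ⟨g2, h⟩ := mul_eq1 h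
    obtain ⟨g4, h⟩ := mul_eq1 h
    obtain ⟨g7, g11⟩ := mul_eq1 h
    rw [hb 0 (by norm_num)] at g0
    rw [hb 2 (by norm_num)] at g2
    rw [hb 4 (by norm_num)] at g4
    rw [hb 7 (by norm_num)] at g7
    rw [hb 11 (by norm_num)] at g11
    exact hK a b d e f ⟨g11, g7, g0, g2, g4⟩
  · intro h
    obtain ⟨g0, h⟩ := mul_eq1 h
    obtain ⟨g1, h⟩ := mul_eq1 h
    obtain ⟨g3, h⟩ := mul_eq1 h
    obtain ⟨g6, g10⟩ := mul_eq1 h
    rw [hb 0 (by norm_num)] at g0
    rw [hb 1 (by norm_num)] at g1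
    rw [hb 3 (by norm_num)] at g3
    rw [hb 6 (by norm_num)] at g6
    rw [hb 10 (by norm_num)] at g10
    exact hK a b c e f ⟨g10, g6, g0, g1, g3⟩
  · intro h
    obtain ⟨g6, h⟩ := mul_eq1 h
    obtain ⟨g7, h⟩ := mul_eq1 h
    obtain ⟨g8, h⟩ := mul_eq1 h
    obtain ⟨g9, g14⟩ := mul_eq1 h
    rw [hb 6 (by norm_num)] at g6
    rw [hb 7 (by norm_num)] at g7
    rw [hb 8 (by norm_num)] at g8
    rw [hb 9 (by norm_num)] at g9
    rw [hb 14 (by norm_num)] at g14
    exact hK a b c d f ⟨g14, g6, g7, g8, g9⟩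
  · intro h
    obtain ⟨g10, h⟩ := mul_eq1 h
    obtain ⟨g11, h⟩ := mul_eq1 h
    obtain ⟨g12, h⟩ := mul_eq1 h
    obtain ⟨g13, g14⟩ := mul_eq1 h
    rw [hb 10 (by norm_num)] at g10
    rw [hb 11 (by norm_num)] at g11
    rw [hb 12 (by norm_num)] at g12
    rw [hb 13 (by norm_num)] at g13
    rw [hb 14 (by norm_num)] at g14
    exact hK a b c d e ⟨g14, g10, g11, g12, g13⟩

theorem MV_tb (hE : Sy E) (hK : NK E) (a b c d e f : V) : MV.testBit (kk E a b c d e f) = false := by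
  rw [← Bool.not_eq_true]
  intro ht
  obtain ⟨n0, n1, n2, n3, n4, n5⟩ := mf_kk hE hK a b c d e f
  have ht' : (MV0 ||| (MV1 ||| (MV2 ||| (MV3 ||| (MV4 ||| MV5))))).testBit (kk E a b c d e f) = true := ht
  rw [Nat.testBit_or, Nat.testBit_or, Nat.testBit_or, Nat.testBit_or, Nat.testBit_or, Bool.or_eq_true, Bool.or_eq_true,
    Bool.or_eq_true, Bool.or_eq_true, Bool.or_eq_true, MV0_eq, MV1_eq, MV2_eq, MV3_eq, MV4_eq, MV5_eq] at ht'
  rcases ht' with h | h | h | h | h | h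
  · exact n0 (enc1_tb mf0_lt h)
  · exact n1 (enc1_tb mf1_lt h)
  · exact n2 (enc1_tb mf2_lt h)
  · exact n3 (enc1_tb mf3_lt h)
  · exact n4 (enc1_tb mf4_lt h)
  · exact n5 (enc1_tb mf5_lt h)

/-- the pointwise inequality -/
theorem W0_le (hE : Sy E) (hK : NK E) (a b c d e f z : V) : W0 E a b c d e f z + gP (kk E a b c d e f) ≤ 1864358762 := by
  have hm := kk_lt hE a b c d e f
  have hfull : CL ||| MV = 2 ^ 32768 - 1 := Nat.eq_of_beq_eq_true full_ok
  have ht : (CL ||| MV).testBit (kk E a b c d e f) = true := by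
    rw [hfull, Nat.testBit_two_pow_sub_one, decide_eq_true_eq]
    exact lt_of_lt_of_eq hm (by norm_num)
  rw [Nat.testBit_or, MV_tb hE hK, Bool.or_false] at ht
  exact (good_CL hE).2 _ ht a b c d e f rfl z

theorem GV_ok : Nat.beq (Nat.lor GV MV) (Nat.sub (Nat.pow 2 32768) 1) = true := by decide +kernel

theorem gP_good (hE : Sy E) (hK : NK E) (a b c d e f : V) : gP (kk E a b c d e f) = 14165846 := by
  have hm := kk_lt hE a b c d e f
  have hfull : GV ||| MV = 2 ^ 32768 - 1 := Nat.eq_of_beq_eq_true GV_ok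
  have ht : (GV ||| MV).testBit (kk E a b c d e f) = true := by
    rw [hfull, Nat.testBit_two_pow_sub_one, decide_eq_true_eq]
    exact lt_of_lt_of_eq hm (by norm_num)
  rw [Nat.testBit_or, MV_tb hE hK, Bool.or_false] at ht
  rw [gP_eq hm]
  have : bt (kk E a b c d e f) GV = 1 := by
    rw [bt_eq]
    rw [Nat.testBit_eq_decide_div_mod_eq] at ht
    simpa using ht
  rw [this]

end

end Pool.Agent.H3.Y
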