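import Pool.Agent.H3.Y.St
import Pool.Agent.H3.Y.Dg

/-! Statements of the further parts. -/

set_option autoImplicit false
open Finset

namespace Pool.Agent.H3.Y

/-- (D1) the sequences of five vertices and the five-sets with an odd number of edges -/
def S_ODD : Prop := ∀ (V : Type) [Fintype V] [DecidableEq V] (H : Finset (Finset V)), FourGraph H →
  120 * odd5 H ≤ ∑ a, ∑ b, ∑ c, ∑ d, ∑ e,
    (ind H a b c d + ind H a b c e + ind H a b d e + ind H a c d e + ind H b c d e) % 2

/-- (D2) the number of edges, the codegree squares and the triples of middle codegree, for all `4`-graphs -/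
def S_MIX : Prop := ∀ (n : ℕ) (H : Finset (Finset (Fin n))), FourGraph H →
  1920 * (n * H.card) ≤ 384 * co2 H + 24 * n ^ 5 + 6 * (n ^ 2 * mid H)

/-- (D3) a `4`-graph with few odd five-sets is close to a coboundary (of the link of a vertex) -/
def S_COB : Prop := ∀ (n : ℕ) (H : Finset (Finset (Fin n))), FourGraph H →
  ∃ G : Finset (Finset (Fin n)), (∀ e ∈ G, e.card = 3) ∧ n * cobDist H G ≤ 5 * odd5 H

end Pool.Agent.H3.Y
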