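import Pool.Agent.H3.Y.Red
import Pool.Agent.H3.Y.St2

/-! Summation of the pointwise inequality. -/

set_option autoImplicit false
set_option maxRecDepth 100000
open Finset

namespace Pool.Agent.H3.Y
open Pool.Agent.T2H33.K6

noncomputable section

variable {V : Type} {E : V → V → V → V → ℕ}

attribute [local irreducible] FS rw K2 SG O10 enc fld GV pv gP

theorem sum_cons [Fintype V] {M : Type} [AddCommMonoid M] (n : ℕ) (F : (Fin (n + 1) → V) → M) :
    ∑ v, F v = ∑ a, ∑ w : Fin n → V, F (Fin.cons a w) := by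
  rw [← (Fin.consEquiv (fun _ => V)).sum_comp, Fintype.sum_prod_type]
  rfl

/-- sum over all the sequences of seven vertices -/
def S7 [Fintype V] (φ : V → V → V → V → V → V → V → ℕ) : ℕ :=
  ∑ v : Fin 7 → V, φ (v 0) (v 1) (v 2) (v 3) (v 4) (v 5) (v 6)

theorem S7_perm [Fintype V] (p q : Fin 7 → Fin 7) (h1 : ∀ i, q (p i) = i) (h2 : ∀ i, p (q i) = i)
    (φ : V → V → V → V → V → V → V → ℕ) :
    ∑ v : Fin 7 → V, φ (v (p 0)) (v (p 1)) (v (p 2)) (v (p 3)) (v (p 4)) (v (p 5)) (v (p 6)) = S7 φ :=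
  Fintype.sum_equiv (Equiv.arrowCongr (⟨q, p, h2, h1⟩ : Fin 7 ≃ Fin 7) (Equiv.refl V)) _ _ fun _ => rfl

theorem S7_add [Fintype V] (φ ψ : V → V → V → V → V → V → V → ℕ) :
    S7 (fun a b c d e f z => φ a b c d e f z + ψ a b c d e f z) = S7 φ + S7 ψ := sum_add_distrib

theorem S7_mono [Fintype V] {φ ψ : V → V → V → V → V → V → V → ℕ} (h : ∀ a b c d e f z, φ a b c d e f z ≤ ψ a b c d e f z) :
    S7 φ ≤ S7 ψ := sum_le_sum fun v _ => h _ _ _ _ _ _ _

theorem S7_const [Fintype V] (c : ℕ) : S7 (fun _ _ _ _ _ _ _ : V => c) = c * Fintype.card V ^ 7 := by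
  unfold S7
  rw [sum_const, card_univ, smul_eq_mul, Fintype.card_fun, Fintype.card_fin, mul_comm]

theorem S7_nest [Fintype V] (φ : V → V → V → V → V → V → V → ℕ) :
    S7 φ = ∑ a, ∑ b, ∑ c, ∑ d, ∑ e, ∑ f, ∑ z, φ a b c d e f z := by
  unfold S7
  rw [sum_cons]; refine sum_congr rfl fun a _ => ?_
  rw [sum_cons]; refine sum_congr rfl fun b _ => ?_
  rw [sum_cons]; refine sum_congr rfl fun c _ => ?_
  rw [sum_cons]; refine sum_congr rfl fun d _ => ?_
  rw [sum_cons]; refine sum_congr rfl fun e _ => ?_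
  rw [sum_cons]; refine sum_congr rfl fun f _ => ?_
  rw [sum_cons]; refine sum_congr rfl fun z _ => ?_
  rw [Fintype.sum_unique]
  rfl

theorem wt0 [Fintype V] : S7 (fun a b c d e f z => TT E a b c d e f z) = S7 (TT E) := S7_perm ![0, 1, 2, 3, 4, 5, 6] ![0, 1, 2, 3, 4, 5, 6] (by decide) (by decide) (TT E)
theorem wy0 [Fintype V] : S7 (fun a b c d e f z => YY E a b c d e f z) = S7 (YY E) := S7_perm ![0, 1, 2, 3, 4, 5, 6] ![0, 1, 2, 3, 4, 5, 6] (by decide) (by decide) (YY E)
theorem wt1 [Fintype V] : S7 (fun a b c d e f z => TT E f b c d e a z) = S7 (TT E) := S7_perm ![5, 1, 2, 3, 4, 0, 6] ![5, 1, 2, 3, 4, 0, 6] (by decide) (by decide) (TT E)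
theorem wy1 [Fintype V] : S7 (fun a b c d e f z => YY E f b c d e a z) = S7 (YY E) := S7_perm ![5, 1, 2, 3, 4, 0, 6] ![5, 1, 2, 3, 4, 0, 6] (by decide) (by decide) (YY E)
theorem wt2 [Fintype V] : S7 (fun a b c d e f z => TT E a f c d e b z) = S7 (TT E) := S7_perm ![0, 5, 2, 3, 4, 1, 6] ![0, 5, 2, 3, 4, 1, 6] (by decide) (by decide) (TT E)
theorem wy2 [Fintype V] : S7 (fun a b c d e f z => YY E a f c d e b z) = S7 (YY E) := S7_perm ![0, 5, 2, 3, 4, 1, 6] ![0, 5, 2, 3, 4, 1, 6] (by decide) (by decide) (YY E)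
theorem wt3 [Fintype V] : S7 (fun a b c d e f z => TT E a b f d e c z) = S7 (TT E) := S7_perm ![0, 1, 5, 3, 4, 2, 6] ![0, 1, 5, 3, 4, 2, 6] (by decide) (by decide) (TT E)
theorem wy3 [Fintype V] : S7 (fun a b c d e f z => YY E a b f d e c z) = S7 (YY E) := S7_perm ![0, 1, 5, 3, 4, 2, 6] ![0, 1, 5, 3, 4, 2, 6] (by decide) (by decide) (YY E)
theorem wt4 [Fintype V] : S7 (fun a b c d e f z => TT E a b c f d e z) = S7 (TT E) := S7_perm ![0, 1, 2, 5, 3, 4, 6] ![0, 1, 2, 4, 5, 3, 6] (by decide) (by decide) (TT E)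
theorem wy4 [Fintype V] : S7 (fun a b c d e f z => YY E a b c f d e z) = S7 (YY E) := S7_perm ![0, 1, 2, 5, 3, 4, 6] ![0, 1, 2, 4, 5, 3, 6] (by decide) (by decide) (YY E)
theorem wt5 [Fintype V] : S7 (fun a b c d e f z => TT E a b e f c d z) = S7 (TT E) := S7_perm ![0, 1, 4, 5, 2, 3, 6] ![0, 1, 4, 5, 2, 3, 6] (by decide) (by decide) (TT E)
theorem wy5 [Fintype V] : S7 (fun a b c d e f z => YY E a b e f c d z) = S7 (YY E) := S7_perm ![0, 1, 4, 5, 2, 3, 6] ![0, 1, 4, 5, 2, 3, 6] (by decide) (by decide) (YY E)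
theorem wt6 [Fintype V] : S7 (fun a b c d e f z => TT E e b c d a f z) = S7 (TT E) := S7_perm ![4, 1, 2, 3, 0, 5, 6] ![4, 1, 2, 3, 0, 5, 6] (by decide) (by decide) (TT E)
theorem wt7 [Fintype V] : S7 (fun a b c d e f z => TT E a e c d b f z) = S7 (TT E) := S7_perm ![0, 4, 2, 3, 1, 5, 6] ![0, 4, 2, 3, 1, 5, 6] (by decide) (by decide) (TT E)
theorem wt8 [Fintype V] : S7 (fun a b c d e f z => TT E a b e d c f z) = S7 (TT E) := S7_perm ![0, 1, 4, 3, 2, 5, 6] ![0, 1, 4, 3, 2, 5, 6] (by decide) (by decide) (TT E)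
theorem wt9 [Fintype V] : S7 (fun a b c d e f z => TT E a b c e d f z) = S7 (TT E) := S7_perm ![0, 1, 2, 4, 3, 5, 6] ![0, 1, 2, 4, 3, 5, 6] (by decide) (by decide) (TT E)
theorem wt10 [Fintype V] : S7 (fun a b c d e f z => TT E e f c d a b z) = S7 (TT E) := S7_perm ![4, 5, 2, 3, 0, 1, 6] ![4, 5, 2, 3, 0, 1, 6] (by decide) (by decide) (TT E)
theorem wt11 [Fintype V] : S7 (fun a b c d e f z => TT E e b f d a c z) = S7 (TT E) := S7_perm ![4, 1, 5, 3, 0, 2, 6] ![4, 1, 5, 3, 0, 2, 6] (by decide) (by decide) (TT E)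
theorem wt12 [Fintype V] : S7 (fun a b c d e f z => TT E e b c f a d z) = S7 (TT E) := S7_perm ![4, 1, 2, 5, 0, 3, 6] ![4, 1, 2, 5, 0, 3, 6] (by decide) (by decide) (TT E)
theorem wt13 [Fintype V] : S7 (fun a b c d e f z => TT E a e f d b c z) = S7 (TT E) := S7_perm ![0, 4, 5, 3, 1, 2, 6] ![0, 4, 5, 3, 1, 2, 6] (by decide) (by decide) (TT E)
theorem wt14 [Fintype V] : S7 (fun a b c d e f z => TT E a e c f b d z) = S7 (TT E) := S7_perm ![0, 4, 2, 5, 1, 3, 6] ![0, 4, 2, 5, 1, 3, 6] (by decide) (by decide) (TT E)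

theorem W0_sum [Fintype V] : S7 (W0 E) = 15 * S7 (TT E) + 6 * S7 (YY E) := by
  have h : S7 (W0 E) = (S7 (fun a b c d e f z => TT E a b c d e f z) + S7 (fun a b c d e f z => YY E a b c d e f z)) + ((S7 (fun a b c d e f z => TT E f b c d e a z) + S7 (fun a b c d e f z => YY E f b c d e a z)) + ((S7 (fun a b c d e f z => TT E a f c d e b z) + S7 (fun a b c d e f z => YY E a f c d e b z)) + ((S7 (fun a b c d e f z => TT E a b f d e c z) + S7 (fun a b c d e f z => YY E a b f d e c z)) + ((S7 (fun a b c d e f z => TT E a b c f d e z) + S7 (fun a b c d e f z => YY E a b c f d e z)) + ((S7 (fun a b c d e f z => TT E a b e f c d z) + S7 (fun a b c d e f z => YY E a b e f c d z)) + (S7 (fun a b c d e f z => TT E e b c d a f z) + (S7 (fun a b c d e f z => TT E a e c d b f z) + (S7 (fun a b c d e f z => TT E a b e d c f z) + (S7 (fun a b c d e f z => TT E a b c e d f z) + (S7 (fun a b c d e f z => TT E e f c d a b z) + (S7 (fun a b c d e f z => TT E e b f d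 a c z) + (S7 (fun a b c d e f z => TT E e b c f a d z) + (S7 (fun a b c d e f z => TT E a e f d b c z) + (S7 (fun a b c d e f z => TT E a e c f b d z))))))))))))))) := by
    rw [← S7_add, ← S7_add, ← S7_add, ← S7_add, ← S7_add, ← S7_add, ← S7_add, ← S7_add, ← S7_add, ← S7_add, ← S7_add, ← S7_add, ← S7_add, ← S7_add, ← S7_add, ← S7_add, ← S7_add, ← S7_add, ← S7_add, ← S7_add]
    rfl
  rw [h, wt0, wy0, wt1, wy1, wt2, wy2, wt3, wy3, wt4, wy4, wt5, wy5, wt6, wt7, wt8, wt9, wt10, wt11, wt12, wt13, wt14]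
  ring

theorem TT_sum [Fintype V] : S7 (TT E) = S7 (PV E) :=
  S7_perm ![0, 1, 2, 3, 6, 5, 4] ![0, 1, 2, 3, 6, 5, 4] (by decide) (by decide) (PV E)

/-- the sum over the structures on six vertices -/
def G7 [Fintype V] (E : V → V → V → V → ℕ) : ℕ := S7 (fun a b c d e f _ => gP (kk E a b c d e f))

theorem G7_perm [Fintype V] : S7 (fun a b c d e _ z => gP (kk E a b c d e z)) = G7 E :=
  S7_perm ![0, 1, 2, 3, 4, 6, 5] ![0, 1, 2, 3, 4, 6, 5] (by decide) (by decide) (fun a b c d e f _ => gP (kk E a b c d e f))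

theorem YY_sum [Fintype V] : S7 (YY E) = S7 (PV E) + G7 E := by
  rw [← G7_perm, ← S7_add]
  rfl

theorem tot_sum [Fintype V] : S7 (fun a b c d e f z => W0 E a b c d e f z + gP (kk E a b c d e f)) = 21 * S7 (PV E) + 7 * G7 E := by
  rw [S7_add, W0_sum, TT_sum, YY_sum]
  unfold G7
  ring

theorem tot_up [Fintype V] (hE : Sy E) (hK : NK E) : 21 * S7 (PV E) + 7 * G7 E ≤ 1864358762 * Fintype.card V ^ 7 := by
  rw [← tot_sum, ← S7_const]
  exact S7_mono fun a b c d e f z => W0_le hE hK a b c d e f z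

/-- number of quadruples of five vertices -/
def e5 (E : V → V → V → V → ℕ) (a b c d e : V) : ℕ := E a b c d + E a b c e + E a b d e + E a c d e + E b c d e

/-- number of pairs of quadruples of five vertices -/
def f5 (E : V → V → V → V → ℕ) (a b c d e : V) : ℕ :=
  E a b c d * E a b c e + E a b c d * E a b d e + E a b c d * E a c d e + E a b c d * E b c d e +
  E a b c e * E a b d e + E a b c e * E a c d e + E a b c e * E b c d e +
  E a b d e * E a c d e + E a b d e * E b c d e + E a c d e * E b c d e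

theorem ch_e5 (hE : Sy E) (hK : NK E) (a b c d e : V) : ch (e5 E a b c d e) = 2048 * f5 E a b c d e + e5 E a b c d e % 2 := by
  have h0 := hK a b c d e
  have h1 := hE.lt a b c d
  have h2 := hE.lt a b c e
  have h3 := hE.lt a b d e
  have h4 := hE.lt a c d e
  have h5 := hE.lt b c d e
  unfold f5 e5
  generalize E a b c d = x1 at *
  generalize E a b c e = x2 at *
  generalize E a b d e = x3 at *
  generalize E a c d e = x4 at *
  generalize E b c d e = x5 at *
  interval_cases x1 <;> interval_cases x2 <;> interval_cases x3 <;> interval_cases x4 <;> interval_cases x5 <;>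
    first | rfl | exact absurd ⟨rfl, rfl, rfl, rfl, rfl⟩ h0

/-- sum over the sequences of five vertices -/
def S5 [Fintype V] (φ : V → V → V → V → V → ℕ) : ℕ := ∑ v : Fin 5 → V, φ (v 0) (v 1) (v 2) (v 3) (v 4)

theorem S5_perm [Fintype V] (p q : Fin 5 → Fin 5) (h1 : ∀ i, q (p i) = i) (h2 : ∀ i, p (q i) = i)
    (φ : V → V → V → V → V → ℕ) :
    ∑ v : Fin 5 → V, φ (v (p 0)) (v (p 1)) (v (p 2)) (v (p 3)) (v (p 4)) = S5 φ :=
  Fintype.sum_equiv (Equiv.arrowCongr (⟨q, p, h2, h1⟩ : Fin 5 ≃ Fin 5) (Equiv.refl V)) _ _ fun _ => rfl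

/-- number of the sequences of five vertices with an odd number of quadruples -/
def O5 [Fintype V] (E : V → V → V → V → ℕ) : ℕ := ∑ a, ∑ b, ∑ c, ∑ d, ∑ e, e5 E a b c d e % 2

theorem S5_nest [Fintype V] (φ : V → V → V → V → V → ℕ) :
    S5 φ = ∑ a, ∑ b, ∑ c, ∑ d, ∑ e, φ a b c d e := by
  unfold S5
  rw [sum_cons]; refine sum_congr rfl fun a _ => ?_
  rw [sum_cons]; refine sum_congr rfl fun b _ => ?_
  rw [sum_cons]; refine sum_congr rfl fun c _ => ?_
  rw [sum_cons]; refine sum_congr rfl fun d _ => ?_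
  rw [sum_cons]; refine sum_congr rfl fun e _ => ?_
  rw [Fintype.sum_unique]
  rfl

theorem S5_congr [Fintype V] {φ ψ : V → V → V → V → V → ℕ} (h : ∀ a b c d e, φ a b c d e = ψ a b c d e) : S5 φ = S5 ψ :=
  sum_congr rfl fun _ _ => h _ _ _ _ _

theorem S3_five [Fintype V] : S5 (fun a b c d e => E a b c d * E a b c e) = S3 E := by
  rw [S5_nest]
  unfold S3
  refine sum_congr rfl fun a _ => sum_congr rfl fun b _ => sum_congr rfl fun c _ => ?_
  rw [sq, Finset.sum_mul_sum]

theorem f5_sum [Fintype V] (hE : Sy E) : S5 (f5 E) = 10 * S3 E := by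
  have q1 : S5 (fun a b c d e => E a b c d * E a b c e) = S3 E := S3_five
  have q2 : S5 (fun a b c d e => E a b c d * E a b d e) = S3 E := by
    have h : S5 (fun a b c d e => E a b d c * E a b d e) = S3 E :=
      (S5_perm ![0, 1, 3, 2, 4] ![0, 1, 3, 2, 4] (by decide) (by decide) (fun a b c d e => E a b c d * E a b c e)).trans S3_five
    rw [← h]
    exact S5_congr fun a b c d e => by rw [hE.s3 a b c d]
  have q3 : S5 (fun a b c d e => E a b c d * E a c d e) = S3 E := by
    have h : S5 (fun a b c d e => E a c d b * E a c d e) = S3 E :=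
      (S5_perm ![0, 2, 3, 1, 4] ![0, 3, 1, 2, 4] (by decide) (by decide) (fun a b c d e => E a b c d * E a b c e)).trans S3_five
    rw [← h]
    exact S5_congr fun a b c d e => by rw [hE.s3 a c b d, hE.s2 a b c d]
  have q4 : S5 (fun a b c d e => E a b c d * E b c d e) = S3 E := by
    have h : S5 (fun a b c d e => E b c d a * E b c d e) = S3 E :=
      (S5_perm ![1, 2, 3, 0, 4] ![3, 0, 1, 2, 4] (by decide) (by decide) (fun a b c d e => E a b c d * E a b c e)).trans S3_five
    rw [← h]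
    exact S5_congr fun a b c d e => by rw [hE.s3 b c a d, hE.s2 b a c d, hE.s1 a b c d]
  have q5 : S5 (fun a b c d e => E a b c e * E a b d e) = S3 E := by
    have h : S5 (fun a b c d e => E a b e c * E a b e d) = S3 E :=
      (S5_perm ![0, 1, 4, 2, 3] ![0, 1, 3, 4, 2] (by decide) (by decide) (fun a b c d e => E a b c d * E a b c e)).trans S3_five
    rw [← h]
    exact S5_congr fun a b c d e => by rw [hE.s3 a b c e, hE.s3 a b d e]
  have q6 : S5 (fun a b c d e => E a b c e * E a c d e) = S3 E := by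
    have h : S5 (fun a b c d e => E a c e b * E a c e d) = S3 E :=
      (S5_perm ![0, 2, 4, 1, 3] ![0, 3, 1, 4, 2] (by decide) (by decide) (fun a b c d e => E a b c d * E a b c e)).trans S3_five
    rw [← h]
    exact S5_congr fun a b c d e => by rw [hE.s3 a c b e, hE.s2 a b c e, hE.s3 a c d e]
  have q7 : S5 (fun a b c d e => E a b c e * E b c d e) = S3 E := by
    have h : S5 (fun a b c d e => E b c e a * E b c e d) = S3 E :=
      (S5_perm ![1, 2, 4, 0, 3] ![3, 0, 1, 4, 2] (by decide) (by decide) (fun a b c d e => E a b c d * E a b c e)).trans S3_five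
    rw [← h]
    exact S5_congr fun a b c d e => by rw [hE.s3 b c a e, hE.s2 b a c e, hE.s1 a b c e, hE.s3 b c d e]
  have q8 : S5 (fun a b c d e => E a b d e * E a c d e) = S3 E := by
    have h : S5 (fun a b c d e => E a d e b * E a d e c) = S3 E :=
      (S5_perm ![0, 3, 4, 1, 2] ![0, 3, 4, 1, 2] (by decide) (by decide) (fun a b c d e => E a b c d * E a b c e)).trans S3_five
    rw [← h]
    exact S5_congr fun a b c d e => by rw [hE.s3 a d b e, hE.s2 a b d e, hE.s3 a d c e, hE.s2 a c d e]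
  have q9 : S5 (fun a b c d e => E a b d e * E b c d e) = S3 E := by
    have h : S5 (fun a b c d e => E b d e a * E b d e c) = S3 E :=
      (S5_perm ![1, 3, 4, 0, 2] ![3, 0, 4, 1, 2] (by decide) (by decide) (fun a b c d e => E a b c d * E a b c e)).trans S3_five
    rw [← h]
    exact S5_congr fun a b c d e => by rw [hE.s3 b d a e, hE.s2 b a d e, hE.s1 a b d e, hE.s3 b d c e, hE.s2 b c d e]
  have q10 : S5 (fun a b c d e => E a c d e * E b c d e) = S3 E := by
    have h : S5 (fun a b c d e => E c d e a * E c d e b) = S3 E :=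
      (S5_perm ![2, 3, 4, 0, 1] ![3, 4, 0, 1, 2] (by decide) (by decide) (fun a b c d e => E a b c d * E a b c e)).trans S3_five
    rw [← h]
    exact S5_congr fun a b c d e => by rw [hE.s3 c d a e, hE.s2 c a d e, hE.s1 a c d e, hE.s3 c d b e, hE.s2 c b d e, hE.s1 b c d e]
  have hs : S5 (f5 E) = S5 (fun a b c d e => E a b c d * E a b c e) + S5 (fun a b c d e => E a b c d * E a b d e) +
      S5 (fun a b c d e => E a b c d * E a c d e) + S5 (fun a b c d e => E a b c d * E b c d e) +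
      S5 (fun a b c d e => E a b c e * E a b d e) + S5 (fun a b c d e => E a b c e * E a c d e) +
      S5 (fun a b c d e => E a b c e * E b c d e) + S5 (fun a b c d e => E a b d e * E a c d e) +
      S5 (fun a b c d e => E a b d e * E b c d e) + S5 (fun a b c d e => E a c d e * E b c d e) := by
    simp only [S5, ← sum_add_distrib]
    rfl
  rw [hs, q1, q2, q3, q4, q5, q6, q7, q8, q9, q10]
  ring

theorem pc5_ty (hE : Sy E) (a b c d e : V) : pc5 (pk 5 (tyb E a b c d e)) = e5 E a b c d e := by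
  have h : ∀ k < 5, tyb E a b c d e k < 2 := fun k hk => by
    interval_cases k <;> exact hE.lt _ _ _ _
  unfold pc5
  rw [bt_pk h (by norm_num), bt_pk h (by norm_num), bt_pk h (by norm_num), bt_pk h (by norm_num), bt_pk h (by norm_num)]
  show E a b c e + E a b d e + E a c d e + E b c d e + E a b c d = E a b c d + E a b c e + E a b d e + E a c d e + E b c d e
  omega

theorem PV_low1 [Fintype V] (hE : Sy E) (hK : NK E) (a b c d e : V) :
    ((81517520 : ℤ) + 256 * ((2048 * f5 E a b c d e + e5 E a b c d e % 2 : ℕ) : ℤ)) * (Fintype.card V : ℤ) ^ 2 ≤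
      ∑ x, ∑ y, (PV E a b c d e x y : ℤ) := by
  have ht : pk 5 (tyb E a b c d e) < 32 := by
    rw [← kk_ty hE a b c d e a]
    exact Nat.div_lt_of_lt_mul (kk_lt hE a b c d e a)
  have h := (Pr_all _ ht).2 V (fun x => kk E a b c d e x % 1024) (fun x => Nat.mod_lt _ (by norm_num))
  rw [pc5_ty hE, ch_e5 hE hK] at h
  refine le_trans h (le_of_eq ?_)
  refine sum_congr rfl fun x _ => sum_congr rfl fun y _ => ?_
  show _ = ((pv (kk E a b c d e x) (kk E a b c d e y) : ℕ) : ℤ)
  rw [pv_qq, kk_ty hE a b c d e x]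

theorem PV_low [Fintype V] (hE : Sy E) (hK : NK E) :
    81517520 * (Fintype.card V : ℤ) ^ 7 + 256 * ((Fintype.card V : ℤ) ^ 2 * (20480 * S3 E + O5 E)) ≤ (S7 (PV E) : ℤ) := by
  rw [S7_nest]
  push_cast
  calc 81517520 * (Fintype.card V : ℤ) ^ 7 + 256 * ((Fintype.card V : ℤ) ^ 2 * (20480 * S3 E + O5 E))
      = ∑ a, ∑ b, ∑ c, ∑ d, ∑ e, ((81517520 : ℤ) + 256 * ((2048 * f5 E a b c d e + e5 E a b c d e % 2 : ℕ) : ℤ)) *
          (Fintype.card V : ℤ) ^ 2 := by
        have h : (∑ a, ∑ b, ∑ c, ∑ d, ∑ e, ((2048 * f5 E a b c d e + e5 E a b c d e % 2 : ℕ) : ℤ)) =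
            20480 * (S3 E : ℤ) + (O5 E : ℤ) := by
          have h' := f5_sum hE
          rw [S5_nest] at h'
          have h1 : (∑ a, ∑ b, ∑ c, ∑ d, ∑ e, (2048 * f5 E a b c d e + e5 E a b c d e % 2)) =
              2048 * (∑ a, ∑ b, ∑ c, ∑ d, ∑ e, f5 E a b c d e) + O5 E := by
            unfold O5
            simp only [sum_add_distrib, ← mul_sum]
          rw [h'] at h1
          have h2 : (∑ a, ∑ b, ∑ c, ∑ d, ∑ e, (2048 * f5 E a b c d e + e5 E a b c d e % 2)) =
              20480 * S3 E + O5 E := by rw [h1]; ring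
          exact_mod_cast h2
        simp only [add_mul, sum_add_distrib, sum_const, card_univ, nsmul_eq_mul, ← sum_mul, ← mul_sum]
        rw [h]
        ring
    _ ≤ _ := sum_le_sum fun a _ => sum_le_sum fun b _ => sum_le_sum fun c _ => sum_le_sum fun d _ =>
        sum_le_sum fun e _ => PV_low1 hE hK a b c d e

theorem G7_eq [Fintype V] (hE : Sy E) (hK : NK E) : G7 E = 14165846 * Fintype.card V ^ 7 := by
  unfold G7
  rw [← S7_const]
  unfold S7
  exact sum_congr rfl fun v _ => gP_good hE hK _ _ _ _ _ _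

/-- **the main inequality** -/
theorem main_ineq [Fintype V] (hE : Sy E) (hK : NK E) : 20480 * S3 E + O5 E ≤ 9920 * Fintype.card V ^ 5 := by
  have h1 : 21 * (S7 (PV E) : ℤ) + 7 * (G7 E : ℤ) ≤ 1864358762 * (Fintype.card V : ℤ) ^ 7 := by exact_mod_cast tot_up hE hK
  have h2 : (G7 E : ℤ) = 14165846 * (Fintype.card V : ℤ) ^ 7 := by exact_mod_cast G7_eq hE hK
  have h3 := PV_low hE hK
  rcases Nat.eq_zero_or_pos (Fintype.card V) with h0 | hpos
  · have hem : IsEmpty V := Fintype.card_eq_zero_iff.mp h0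
    unfold S3 O5
    rw [Fintype.sum_empty, Fintype.sum_empty]
    exact Nat.zero_le _
  · have hp : (0 : ℤ) < (Fintype.card V : ℤ) ^ 2 := by positivity
    have key : (Fintype.card V : ℤ) ^ 2 * (20480 * S3 E + O5 E) ≤ (Fintype.card V : ℤ) ^ 2 * (9920 * (Fintype.card V : ℤ) ^ 5) := by
      have e1 : (Fintype.card V : ℤ) ^ 2 * (9920 * (Fintype.card V : ℤ) ^ 5) = 9920 * (Fintype.card V : ℤ) ^ 7 := by ring
      rw [e1]
      linarith
    have := le_of_mul_le_mul_left key hp
    exact_mod_cast this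

end

end Pool.Agent.H3.Y
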