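import Pool.Agent.H3.Y.Fs
import Pool.Agent.H3.Y.CfK
import Pool.Agent.H3.Y.EqK
import Pool.Agent.H3.Y.Psd

/-! The scalar products of the flags: invariance, symmetry and positivity. -/

set_option autoImplicit false
set_option maxRecDepth 100000
set_option exponentiation.threshold 40000
open Finset

namespace Pool.Agent.H3.Y
open Pool.Agent.T2H33.K6

noncomputable section

attribute [local irreducible] FS rw K2 SG O10 enc fld GV co np wc vc lc

theorem pk_self {n x : ℕ} (h : x < 2 ^ n) : pk n (fun k => bt k x) = x := by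
  induction n generalizing x with
  | zero => simp only [pow_zero, Nat.lt_one_iff] at h; subst h; simp [pk]
  | succ n ih =>
    rw [pk_succ]
    have hd : x % 2 ^ n < 2 ^ n := Nat.mod_lt _ (by positivity)
    have e1 : pk n (fun k => bt k x) = pk n (fun k => bt k (x % 2 ^ n)) := pk_congr fun k hk => by
      rw [bt_eq, bt_eq]
      obtain ⟨r, rfl⟩ : ∃ r, n = k + (r + 1) := ⟨n - k - 1, by omega⟩
      rw [pow_add, Nat.mod_mul_right_div_self, pow_succ', Nat.mod_mul_right_mod]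
    rw [e1, ih hd, bt_eq]
    have h2 : x / 2 ^ n < 2 := Nat.div_lt_of_lt_mul (by rw [← pow_succ]; exact h)
    rw [Nat.mod_eq_of_lt h2, mul_comm]
    exact Nat.mod_add_div x (2 ^ n)

theorem bt_lt_two' (k x : ℕ) : bt k x < 2 := by rcases bt01 k x with h | h <;> omega

theorem sp_sp' {p q : ℕ} (h : p < q) (k : ℕ) : sp p q (sp p q k) = k := by
  unfold sp
  by_cases h1 : k = p
  · subst h1
    rw [if_pos rfl, if_neg (by omega), if_pos rfl]
  · rw [if_neg h1]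
    by_cases h2 : k = q
    · subst h2
      rw [if_pos rfl, if_pos rfl]
    · rw [if_neg h2, if_neg h1, if_neg h2]

theorem sb_sb {n p q i : ℕ} (h : p < q) (hq : q < n) (hi : i < 2 ^ n) : sb p q (sb p q i) = i := by
  have e := pk_self hi
  rw [← e, sb_pk h hq (fun k _ => bt_lt_two' _ _), sb_pk h hq (fun k _ => bt_lt_two' _ _)]
  exact pk_congr fun k _ => by rw [sp_sp' h]

theorem rs_fld {s p1 q1 p2 q2 p3 q3 : ℕ} (hs : 0 < s) (h1 : p1 < q1) (h1' : q1 < 10) (h2 : p2 < q2) (h2' : q2 < 10)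
    (h3 : p3 < q3) (h3' : q3 < 10) {r : ℕ} (hr : r < 2 ^ (s * 2 ^ 10)) {y : ℕ} (hy : y < 2 ^ 10) :
    fld s (swp s 10 p3 q3 (swp s 10 p2 q2 (swp s 10 p1 q1 r))) (sb p3 q3 (sb p2 q2 (sb p1 q1 y))) = fld s r y := by
  have e : enc s 10 (fld s r) = r := enc_fld hs hr
  have b1 : ∀ i < 2 ^ 10, fld s r i < 2 ^ s := fun i _ => fld_lt s r i
  have k1 := swp_enc (s := s) (n := 10) hs h1 h1' b1
  have b2 : ∀ i < 2 ^ 10, (fun i => fld s r (sb p1 q1 i)) i < 2 ^ s := fun i _ => fld_lt s r _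
  have k2 := swp_enc (s := s) (n := 10) hs h2 h2' b2
  have b3 : ∀ i < 2 ^ 10, (fun i => fld s r (sb p1 q1 (sb p2 q2 i))) i < 2 ^ s := fun i _ => fld_lt s r _
  have k3 := swp_enc (s := s) (n := 10) hs h3 h3' b3
  have hy1 : sb p1 q1 y < 2 ^ 10 := sb_lt h1 h1' hy
  have hy2 : sb p2 q2 (sb p1 q1 y) < 2 ^ 10 := sb_lt h2 h2' hy1
  have hy3 : sb p3 q3 (sb p2 q2 (sb p1 q1 y)) < 2 ^ 10 := sb_lt h3 h3' hy2
  conv_lhs => rw [← e]
  rw [k1, k2, k3, fld_enc hs (fun i _ => fld_lt s r _) hy3, sb_sb h3 h3' hy2, sb_sb h2 h2' hy1, sb_sb h1 h1' hy]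

/-- the scalar product of the flags `x` and `y` of type `t` -/
def qq (t x y : ℕ) : ℕ := FS 1 x (fun k => fld 32 (rw t k) y)

theorem qq_eqv {t t' x x' y y' : ℕ} (π : ℕ → ℕ) (hπ : ∀ k < 146, π k < 146) (hππ : ∀ k < 146, π (π k) = k)
    (h1 : ∀ k < 146, bt x' (SG (π k)) = bt x (SG k)) (h2 : ∀ k < 146, K2 (π k) = K2 k)
    (h3 : ∀ k < 146, fld 32 (rw t' (π k)) y' = fld 32 (rw t k) y) : qq t' x' y' = qq t x y := by
  unfold qq FS
  rw [sm_sum, sm_sum]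
  symm
  refine sum_nbij' π π ?_ ?_ ?_ ?_ ?_
  · intro k hk; exact mem_range.mpr (hπ k (mem_range.mp hk))
  · intro k hk; exact mem_range.mpr (hπ k (mem_range.mp hk))
  · intro k hk; exact hππ k (mem_range.mp hk)
  · intro k hk; exact hππ k (mem_range.mp hk)
  · intro k hk
    have hk' := mem_range.mp hk
    show _ = cnd (Nat.beq (bt x' (SG (π k))) 0) (fld 32 (rw t' (π k)) y') (Nat.sub (Nat.mul (K2 (π k)) 1) (fld 32 (rw t' (π k)) y'))
    rw [h1 k hk', h2 k hk', h3 k hk']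

theorem bt_fld (y N : ℕ) : bt y N = fld 1 N y := by
  unfold fld
  rw [bt_eq, one_mul, pow_one]

theorem SG_lt {k : ℕ} (hk : k < 146) : SG k < 2 ^ (1 * 2 ^ 10) := by
  have h := Nat.le_of_ble_eq_true (al_true cSG hk)
  exact h

/-- the inverse of the exchange -/
def fi01 (y : ℕ) : ℕ := (sb 1 3 (sb 2 4 (sb 8 9 y)))
theorem fi01_lt {y : ℕ} (hy : y < 2 ^ 10) : fi01 y < 2 ^ 10 :=
  sb_lt (by norm_num) (by norm_num) (sb_lt (by norm_num) (by norm_num) (sb_lt (by norm_num) (by norm_num) hy))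
theorem fs01_lt {y : ℕ} (hy : y < 2 ^ 10) : fs01 y < 2 ^ 10 :=
  sb_lt (by norm_num) (by norm_num) (sb_lt (by norm_num) (by norm_num) (sb_lt (by norm_num) (by norm_num) hy))
theorem fs01_fi {y : ℕ} (hy : y < 2 ^ 10) : fs01 (fi01 y) = y := by
  have h1 : sb 8 9 y < 2 ^ 10 := sb_lt (by norm_num) (by norm_num) hy
  have h2 : sb 2 4 (sb 8 9 y) < 2 ^ 10 := sb_lt (by norm_num) (by norm_num) h1
  show sb 8 9 (sb 2 4 (sb 1 3 (sb 1 3 (sb 2 4 (sb 8 9 y))))) = y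
  rw [sb_sb (n := 10) (by norm_num) (by norm_num) h2, sb_sb (n := 10) (by norm_num) (by norm_num) h1,
    sb_sb (n := 10) (by norm_num) (by norm_num) hy]

theorem g01_sp {k : ℕ} (hk : k < 146) : rs01 1 (SG k) = SG (pi01 k) ∧ K2 (pi01 k) = K2 k ∧ pi01 k < 146 ∧ pi01 (pi01 k) = k := by
  obtain ⟨h1, h2⟩ := cnd_and (al_true cg01 hk)
  obtain ⟨h2, h3⟩ := cnd_and h2
  obtain ⟨h3, h4⟩ := cnd_and h3
  exact ⟨Nat.eq_of_beq_eq_true h1, Nat.eq_of_beq_eq_true h2, Nat.le_of_ble_eq_true h3, Nat.eq_of_beq_eq_true h4⟩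
theorem e01_sp {t k : ℕ} (ht : t < 32) (hk : k < 146) : rs01 32 (rw t k) = rw (ts01 t) (pi01 k) := by
  have h := al_true ce01 ht
  rw [st_eq] at h
  exact Nat.eq_of_beq_eq_true (al_true h hk)
theorem qq01 {t x y : ℕ} (ht : t < 32) (hx : x < 2 ^ 10) (hy : y < 2 ^ 10) : qq (ts01 t) (fs01 x) (fs01 y) = qq t x y := by
  refine qq_eqv pi01 (fun k hk => (g01_sp hk).2.2.1) (fun k hk => (g01_sp hk).2.2.2) (fun k hk => ?_)
    (fun k hk => (g01_sp hk).2.1) (fun k hk => ?_)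
  · rw [bt_fld, bt_fld, ← (g01_sp hk).1]
    exact rs_fld (s := 1) (by norm_num) (by norm_num) (by norm_num) (by norm_num) (by norm_num) (by norm_num)
      (by norm_num) (SG_lt hk) hx
  · rw [← e01_sp ht hk]
    exact rs_fld (s := 32) (by norm_num) (by norm_num) (by norm_num) (by norm_num) (by norm_num) (by norm_num)
      (by norm_num) (row_lt ht hk).1 hy

/-- the inverse of the exchange -/
def fi12 (y : ℕ) : ℕ := (sb 0 1 (sb 4 5 (sb 7 8 y)))
theorem fi12_lt {y : ℕ} (hy : y < 2 ^ 10) : fi12 y < 2 ^ 10 :=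
  sb_lt (by norm_num) (by norm_num) (sb_lt (by norm_num) (by norm_num) (sb_lt (by norm_num) (by norm_num) hy))
theorem fs12_lt {y : ℕ} (hy : y < 2 ^ 10) : fs12 y < 2 ^ 10 :=
  sb_lt (by norm_num) (by norm_num) (sb_lt (by norm_num) (by norm_num) (sb_lt (by norm_num) (by norm_num) hy))
theorem fs12_fi {y : ℕ} (hy : y < 2 ^ 10) : fs12 (fi12 y) = y := by
  have h1 : sb 7 8 y < 2 ^ 10 := sb_lt (by norm_num) (by norm_num) hy
  have h2 : sb 4 5 (sb 7 8 y) < 2 ^ 10 := sb_lt (by norm_num) (by norm_num) h1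
  show sb 7 8 (sb 4 5 (sb 0 1 (sb 0 1 (sb 4 5 (sb 7 8 y))))) = y
  rw [sb_sb (n := 10) (by norm_num) (by norm_num) h2, sb_sb (n := 10) (by norm_num) (by norm_num) h1,
    sb_sb (n := 10) (by norm_num) (by norm_num) hy]

theorem g12_sp {k : ℕ} (hk : k < 146) : rs12 1 (SG k) = SG (pi12 k) ∧ K2 (pi12 k) = K2 k ∧ pi12 k < 146 ∧ pi12 (pi12 k) = k := by
  obtain ⟨h1, h2⟩ := cnd_and (al_true cg12 hk)
  obtain ⟨h2, h3⟩ := cnd_and h2
  obtain ⟨h3, h4⟩ := cnd_and h3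
  exact ⟨Nat.eq_of_beq_eq_true h1, Nat.eq_of_beq_eq_true h2, Nat.le_of_ble_eq_true h3, Nat.eq_of_beq_eq_true h4⟩
theorem e12_sp {t k : ℕ} (ht : t < 32) (hk : k < 146) : rs12 32 (rw t k) = rw (ts12 t) (pi12 k) := by
  have h := al_true ce12 ht
  rw [st_eq] at h
  exact Nat.eq_of_beq_eq_true (al_true h hk)
theorem qq12 {t x y : ℕ} (ht : t < 32) (hx : x < 2 ^ 10) (hy : y < 2 ^ 10) : qq (ts12 t) (fs12 x) (fs12 y) = qq t x y := by
  refine qq_eqv pi12 (fun k hk => (g12_sp hk).2.2.1) (fun k hk => (g12_sp hk).2.2.2) (fun k hk => ?_)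
    (fun k hk => (g12_sp hk).2.1) (fun k hk => ?_)
  · rw [bt_fld, bt_fld, ← (g12_sp hk).1]
    exact rs_fld (s := 1) (by norm_num) (by norm_num) (by norm_num) (by norm_num) (by norm_num) (by norm_num)
      (by norm_num) (SG_lt hk) hx
  · rw [← e12_sp ht hk]
    exact rs_fld (s := 32) (by norm_num) (by norm_num) (by norm_num) (by norm_num) (by norm_num) (by norm_num)
      (by norm_num) (row_lt ht hk).1 hy

/-- the inverse of the exchange -/
def fi23 (y : ℕ) : ℕ := (sb 1 2 (sb 3 4 (sb 6 7 y)))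
theorem fi23_lt {y : ℕ} (hy : y < 2 ^ 10) : fi23 y < 2 ^ 10 :=
  sb_lt (by norm_num) (by norm_num) (sb_lt (by norm_num) (by norm_num) (sb_lt (by norm_num) (by norm_num) hy))
theorem fs23_lt {y : ℕ} (hy : y < 2 ^ 10) : fs23 y < 2 ^ 10 :=
  sb_lt (by norm_num) (by norm_num) (sb_lt (by norm_num) (by norm_num) (sb_lt (by norm_num) (by norm_num) hy))
theorem fs23_fi {y : ℕ} (hy : y < 2 ^ 10) : fs23 (fi23 y) = y := by
  have h1 : sb 6 7 y < 2 ^ 10 := sb_lt (by norm_num) (by norm_num) hy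
  have h2 : sb 3 4 (sb 6 7 y) < 2 ^ 10 := sb_lt (by norm_num) (by norm_num) h1
  show sb 6 7 (sb 3 4 (sb 1 2 (sb 1 2 (sb 3 4 (sb 6 7 y))))) = y
  rw [sb_sb (n := 10) (by norm_num) (by norm_num) h2, sb_sb (n := 10) (by norm_num) (by norm_num) h1,
    sb_sb (n := 10) (by norm_num) (by norm_num) hy]

theorem g23_sp {k : ℕ} (hk : k < 146) : rs23 1 (SG k) = SG (pi23 k) ∧ K2 (pi23 k) = K2 k ∧ pi23 k < 146 ∧ pi23 (pi23 k) = k := by
  obtain ⟨h1, h2⟩ := cnd_and (al_true cg23 hk)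
  obtain ⟨h2, h3⟩ := cnd_and h2
  obtain ⟨h3, h4⟩ := cnd_and h3
  exact ⟨Nat.eq_of_beq_eq_true h1, Nat.eq_of_beq_eq_true h2, Nat.le_of_ble_eq_true h3, Nat.eq_of_beq_eq_true h4⟩
theorem e23_sp {t k : ℕ} (ht : t < 32) (hk : k < 146) : rs23 32 (rw t k) = rw (ts23 t) (pi23 k) := by
  have h := al_true ce23 ht
  rw [st_eq] at h
  exact Nat.eq_of_beq_eq_true (al_true h hk)
theorem qq23 {t x y : ℕ} (ht : t < 32) (hx : x < 2 ^ 10) (hy : y < 2 ^ 10) : qq (ts23 t) (fs23 x) (fs23 y) = qq t x y := by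
  refine qq_eqv pi23 (fun k hk => (g23_sp hk).2.2.1) (fun k hk => (g23_sp hk).2.2.2) (fun k hk => ?_)
    (fun k hk => (g23_sp hk).2.1) (fun k hk => ?_)
  · rw [bt_fld, bt_fld, ← (g23_sp hk).1]
    exact rs_fld (s := 1) (by norm_num) (by norm_num) (by norm_num) (by norm_num) (by norm_num) (by norm_num)
      (by norm_num) (SG_lt hk) hx
  · rw [← e23_sp ht hk]
    exact rs_fld (s := 32) (by norm_num) (by norm_num) (by norm_num) (by norm_num) (by norm_num) (by norm_num)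
      (by norm_num) (row_lt ht hk).1 hy

/-- the inverse of the exchange -/
def fi34 (y : ℕ) : ℕ := (sb 0 7 (sb 1 8 (sb 3 9 y)))
theorem fi34_lt {y : ℕ} (hy : y < 2 ^ 10) : fi34 y < 2 ^ 10 :=
  sb_lt (by norm_num) (by norm_num) (sb_lt (by norm_num) (by norm_num) (sb_lt (by norm_num) (by norm_num) hy))
theorem fs34_lt {y : ℕ} (hy : y < 2 ^ 10) : fs34 y < 2 ^ 10 :=
  sb_lt (by norm_num) (by norm_num) (sb_lt (by norm_num) (by norm_num) (sb_lt (by norm_num) (by norm_num) hy))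
theorem fs34_fi {y : ℕ} (hy : y < 2 ^ 10) : fs34 (fi34 y) = y := by
  have h1 : sb 3 9 y < 2 ^ 10 := sb_lt (by norm_num) (by norm_num) hy
  have h2 : sb 1 8 (sb 3 9 y) < 2 ^ 10 := sb_lt (by norm_num) (by norm_num) h1
  show sb 3 9 (sb 1 8 (sb 0 7 (sb 0 7 (sb 1 8 (sb 3 9 y))))) = y
  rw [sb_sb (n := 10) (by norm_num) (by norm_num) h2, sb_sb (n := 10) (by norm_num) (by norm_num) h1,
    sb_sb (n := 10) (by norm_num) (by norm_num) hy]

theorem g34_sp {k : ℕ} (hk : k < 146) : rs34 1 (SG k) = SG (pi34 k) ∧ K2 (pi34 k) = K2 k ∧ pi34 k < 146 ∧ pi34 (pi34 k) = k := by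
  obtain ⟨h1, h2⟩ := cnd_and (al_true cg34 hk)
  obtain ⟨h2, h3⟩ := cnd_and h2
  obtain ⟨h3, h4⟩ := cnd_and h3
  exact ⟨Nat.eq_of_beq_eq_true h1, Nat.eq_of_beq_eq_true h2, Nat.le_of_ble_eq_true h3, Nat.eq_of_beq_eq_true h4⟩
theorem e34_sp {t k : ℕ} (ht : t < 32) (hk : k < 146) : rs34 32 (rw t k) = rw (ts34 t) (pi34 k) := by
  have h := al_true ce34 ht
  rw [st_eq] at h
  exact Nat.eq_of_beq_eq_true (al_true h hk)
theorem qq34 {t x y : ℕ} (ht : t < 32) (hx : x < 2 ^ 10) (hy : y < 2 ^ 10) : qq (ts34 t) (fs34 x) (fs34 y) = qq t x y := by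
  refine qq_eqv pi34 (fun k hk => (g34_sp hk).2.2.1) (fun k hk => (g34_sp hk).2.2.2) (fun k hk => ?_)
    (fun k hk => (g34_sp hk).2.1) (fun k hk => ?_)
  · rw [bt_fld, bt_fld, ← (g34_sp hk).1]
    exact rs_fld (s := 1) (by norm_num) (by norm_num) (by norm_num) (by norm_num) (by norm_num) (by norm_num)
      (by norm_num) (SG_lt hk) hx
  · rw [← e34_sp ht hk]
    exact rs_fld (s := 32) (by norm_num) (by norm_num) (by norm_num) (by norm_num) (by norm_num) (by norm_num)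
      (by norm_num) (row_lt ht hk).1 hy

end

end Pool.Agent.H3.Y
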